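import Pool.Agent.U818.RZ.Near

/-!
# Hyperbolic maps near every rational map with a zero or pole of large order at infinity
-/

set_option autoImplicit false

open Polynomial MeasureTheory Set Filter Topology Metric

namespace Pool.Agent.U818.RZ

open Pool.Agent.H762R2.Rt Pool.Agent.W751.CD

lemma W_scale {n : ℕ} (z : Fin n → ℂ) (l w : ℂ) :
    (W (fun i => l * z i)).eval (l * w) = l ^ n * (W z).eval w := by
  rw [W_eval, W_eval]
  calc ∏ i, (l * w - l * z i) = ∏ i : Fin n, (l * (w - z i)) :=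
        Finset.prod_congr rfl (fun i _ => by ring)
    _ = _ := by rw [Finset.prod_mul_distrib, Finset.prod_const, Finset.card_univ, Fintype.card_fin]

/-- Dilations correspond to multiples. -/
theorem hyp_scale {m n : ℕ} {z : Fin m → ℂ} {p : Fin n → ℂ} {a₀ a l : ℂ} (ha₀ : a₀ ≠ 0)
    (hl : l ≠ 0) (hzp : ∀ i j, z i ≠ p j) (ha : l ^ ((m : ℤ) - n - 1) = a)
    (h : Hyp (C a * (C a₀ * W z)) (W p)) :
    Hyp (C a₀ * W (fun i => l * z i)) (W (fun j => l * p j)) := by
  have hcop : IsCoprime (C a₀ * W (fun i => l * z i)) (W (fun j => l * p j)) :=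
    W_coprime ha₀ (fun i j he => hzp i j (mul_left_cancel₀ hl he))
  refine hyp_homeo (Homeomorph.mulLeft₀ l hl) hcop (fun w hw => ?_) h
  change (W fun j => l * p j).eval (l * w) ≠ 0 at hw
  change (W p).eval w ≠ 0 ∧ (C a₀ * W fun i => l * z i).eval (l * w) /
    (W fun j => l * p j).eval (l * w) = l * ((C a * (C a₀ * W z)).eval w / (W p).eval w)
  rw [W_scale] at hw ⊢
  have h1 : (W p).eval w ≠ 0 := right_ne_zero_of_mul hw
  have h2 : l ^ n ≠ 0 := pow_ne_zero _ hl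
  refine ⟨h1, ?_⟩
  simp only [eval_mul, eval_C]
  rw [W_scale]
  have h3 : l ^ m = l * a * l ^ n := by
    rw [← ha]
    have e1 : l ^ (m : ℤ) = l ^ (1 : ℤ) * l ^ ((m : ℤ) - n - 1) * l ^ (n : ℤ) := by
      rw [← zpow_add₀ hl, ← zpow_add₀ hl]
      congr 1
      ring
    rw [zpow_natCast, zpow_one, zpow_natCast] at e1
    exact e1
  rw [h3]
  field_simp

/-- Every rational map with a zero or pole of large order at infinity becomes hyperbolic after a
small affine change of its zeros and poles. -/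
theorem near_hyp {M κ B : ℝ} (hM1 : 1 ≤ M) (hκ : 0 < κ) :
    ∃ K : ℝ, ∃ n₀ : ℕ, 0 < K ∧ ∀ m n : ℕ, n₀ ≤ max m n →
      κ * (max m n : ℕ) ≤ |(m : ℝ) - n| → ∀ (z : Fin m → ℂ) (p : Fin n → ℂ) (a₀ : ℂ), a₀ ≠ 0 →
      (∀ i j, z i ≠ p j) → (∀ i, ‖z i‖ ≤ M) → (∀ j, ‖p j‖ ≤ M) →
      |Real.log ‖a₀‖| ≤ B * (max m n : ℕ) → ∀ k : ℕ, 1 ≤ k →
      (freeVals (C a₀ * W z) (W p)).ncard ≤ k → ∀ ε : ℝ,
      K * (Real.sqrt k * Real.log (max m n : ℕ) / (max m n : ℕ)) ≤ ε → ε ≤ 1 →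
      ∃ l τ : ℂ, ‖l - 1‖ ≤ ε ∧ ‖τ‖ ≤ ε ∧
        Hyp (C a₀ * W (fun i => l * z i + τ)) (W (fun j => l * p j + τ)) := by
  obtain ⟨n₁, hn₁⟩ := mult_area' (M := M + 1) (B := B) (by linarith) hκ
  obtain ⟨n₂, hn₂⟩ := exists_nat_gt (2 / κ)
  refine ⟨400 * (1 + 1 / κ), max 12 (max n₁ n₂), by positivity, ?_⟩
  intro m n hN hd z p a₀ ha₀ hzp hz hp hl k hk1 hk ε hε hε1
  set N := max m n with hNd
  have hN12 : 12 ≤ N := (le_max_left _ _).trans hN
  have hN1 : n₁ ≤ N := ((le_max_left _ _).trans (le_max_right _ _)).trans hN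
  have hN2 : n₂ ≤ N := ((le_max_right _ _).trans (le_max_right _ _)).trans hN
  have h12 : (12 : ℝ) ≤ N := by exact_mod_cast hN12
  have hN0 : (0 : ℝ) < N := by linarith
  have hκN : 2 ≤ κ * N := by
    have h1 : 2 / κ < N := hn₂.trans_le (by exact_mod_cast hN2)
    rw [div_lt_iff₀ hκ] at h1
    linarith
  have hlog1 : 1 ≤ Real.log N := by
    rw [Real.le_log_iff_exp_le hN0]
    have := Real.exp_one_lt_d9
    linarith
  have hsk : 1 ≤ Real.sqrt k := by
    rw [Real.one_le_sqrt]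
    exact_mod_cast hk1
  set S : ℝ := Real.sqrt k * Real.log N with hS
  have hS1 : 1 ≤ S := one_le_mul_of_one_le_of_one_le hsk hlog1
  have hK1 : 400 * (S / N) ≤ ε := by
    refine le_trans ?_ hε
    have h1 : 0 ≤ S / N := by positivity
    have h2 : 0 ≤ 1 / κ := by positivity
    nlinarith
  have hK2 : 400 * (S / (κ * N)) ≤ ε := by
    refine le_trans ?_ hε
    have h1 : 400 * (S / (κ * N)) = 400 * (1 / κ) * (S / N) := by field_simp
    have h2 : 0 ≤ S / N := by positivity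
    rw [h1]
    exact mul_le_mul_of_nonneg_right (by linarith) h2
  have hSN : 400 * S ≤ N := by
    have h1 := hK1.trans hε1
    rw [← mul_div_assoc, div_le_iff₀ hN0] at h1
    linarith
  have hεN : 1 / (N : ℝ) ≤ ε := by
    refine le_trans ?_ hK1
    rw [← mul_div_assoc]
    apply div_le_div_of_nonneg_right _ hN0.le
    linarith
  have hε0 : 0 < ε := lt_of_lt_of_le (by positivity) hεN
  -- the translation
  obtain ⟨t, ht1, ht2⟩ := exists_shift (Sum.elim z p) hN12 (by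
    rw [Fintype.card_sum, Fintype.card_fin, Fintype.card_fin]
    have h1 : m ≤ N := le_max_left _ _
    have h2 : n ≤ N := le_max_right _ _
    omega) (δ := ε / 2) (by
    calc 1 / (2 * (N : ℝ)) = 1 / N / 2 := by field_simp
      _ ≤ ε / 2 := div_le_div_of_nonneg_right hεN (by norm_num))
  set z₁ : Fin m → ℂ := fun i => z i + t with hz₁
  set p₁ : Fin n → ℂ := fun j => p j + t with hp₁
  have hzp₁ : ∀ i j, z₁ i ≠ p₁ j := fun i j he => hzp i j (add_right_cancel he)
  have hC : Cfg (M + 1) κ B N (C a₀ * W z₁) (W p₁) := by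
    refine W_cfg ha₀ hzp₁ (fun i => ?_) (fun j => ?_) hd hl
    · exact (norm_add_le _ _).trans (add_le_add (hz i) (ht1.trans (by linarith)))
    · exact (norm_add_le _ _).trans (add_le_add (hp j) (ht1.trans (by linarith)))
  have h0 : ∀ c : ℂ, (C a₀ * W z₁).eval c = 0 ∨ (W p₁).eval c = 0 → 1 / (N : ℝ) ^ 5 ≤ ‖c‖ := by
    rintro c (hc | hc)
    · rw [eval_mul, eval_C] at hc
      obtain ⟨i, rfl⟩ := W_eval_zero ((mul_eq_zero.1 hc).resolve_left ha₀)
      exact ht2 (Sum.inl i)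
    · obtain ⟨j, rfl⟩ := W_eval_zero hc
      exact ht2 (Sum.inr j)
  have hfv : (freeVals (C a₀ * W z₁) (W p₁)).ncard ≤ k := by
    rw [hz₁, hp₁, ← CW_tr, ← W_tr p, freeVals_tr]
    exact hk
  have hnu := hn₁ N hN1 _ _ hC h0 k hk1 hfv
  -- the multiple
  obtain ⟨a, ha1, ha2, ha3⟩ : ∃ a : ℂ, 1 ≤ ‖a‖ ∧ ‖a‖ ≤ Real.exp (74 * S) ∧
      Hyp (C a * (C a₀ * W z₁)) (W p₁) := by
    by_contra hcon
    push Not at hcon
    have hsub : {a : ℂ | 1 ≤ ‖a‖ ∧ ‖a‖ ≤ Real.exp (74 * S)} ⊆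
        {a : ℂ | a ≠ 0 ∧ |Real.log ‖a‖| ≤ N ∧ ¬ Hyp (C a * (C a₀ * W z₁)) (W p₁)} := by
      rintro a ⟨h1, h2⟩
      have h3 : 0 < ‖a‖ := by linarith
      refine ⟨norm_pos_iff.1 h3, ?_, hcon a h1 h2⟩
      rw [abs_of_nonneg (Real.log_nonneg h1)]
      have h4 : Real.log ‖a‖ ≤ 74 * S := by
        rw [Real.log_le_iff_le_exp h3]
        exact h2
      linarith
    have h1 := (measure_mono hsub).trans hnu
    rw [W349.CD.NU_holds.1 _ _ one_pos (Real.one_le_exp (by linarith)), div_one, Real.log_exp,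
      ENNReal.ofReal_le_ofReal_iff (by positivity)] at h1
    have hpi := Real.pi_pos
    have h2 := le_of_mul_le_mul_left h1 (by positivity : 0 < 2 * Real.pi)
    linarith
  have ha0 : 0 < ‖a‖ := by linarith
  have hane : a ≠ 0 := norm_pos_iff.1 ha0
  set q : ℤ := (m : ℤ) - n - 1 with hq
  have hqr : κ * N / 2 ≤ |(q : ℝ)| := by
    have h1 : (q : ℝ) = ((m : ℝ) - n) - 1 := by rw [hq]; push_cast; rfl
    rw [h1]
    have h2 := abs_sub_abs_le_abs_sub ((m : ℝ) - n) 1
    rw [abs_one] at h2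
    linarith
  have hq0 : 0 < |(q : ℝ)| := lt_of_lt_of_le (by positivity) hqr
  have hqC : (q : ℂ) ≠ 0 := by
    have : (q : ℝ) ≠ 0 := abs_pos.1 hq0
    exact_mod_cast this
  set x : ℂ := Complex.log a / q with hx
  have hlognorm : ‖Complex.log a‖ ≤ 78 * S := by
    refine (Complex.norm_le_abs_re_add_abs_im _).trans ?_
    rw [Complex.log_re, Complex.log_im]
    have h1 : |Real.log ‖a‖| ≤ 74 * S := by
      rw [abs_of_nonneg (Real.log_nonneg ha1), Real.log_le_iff_le_exp ha0]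
      exact ha2
    have h2 := Complex.abs_arg_le_pi a
    have h3 := Real.pi_lt_d2
    linarith
  have hxn : ‖x‖ ≤ 156 * (S / (κ * N)) := by
    rw [hx, norm_div]
    have h1 : ‖(q : ℂ)‖ = |(q : ℝ)| := by
      rw [← Complex.ofReal_intCast, Complex.norm_real, Real.norm_eq_abs]
    rw [h1, div_le_iff₀ hq0]
    have h2 : 156 * (S / (κ * N)) * (κ * N / 2) = 78 * S := by
      field_simp
      ring
    calc ‖Complex.log a‖ ≤ 78 * S := hlognorm
      _ = 156 * (S / (κ * N)) * (κ * N / 2) := h2.symm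
      _ ≤ _ := mul_le_mul_of_nonneg_left hqr (by positivity)
  have hSk0 : 0 ≤ S / (κ * N) := by positivity
  have hl1 : ‖Complex.exp x - 1‖ ≤ ε := by
    refine (Complex.norm_exp_sub_one_le (by linarith)).trans ?_
    linarith
  have hlz : Complex.exp x ^ q = a := by
    rw [← Complex.exp_int_mul, hx, mul_div_cancel₀ _ hqC, Complex.exp_log hane]
  have hfin := hyp_scale ha₀ (Complex.exp_ne_zero x) hzp₁ hlz ha3
  refine ⟨Complex.exp x, Complex.exp x * t, hl1, ?_, ?_⟩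
  · rw [norm_mul]
    have h1 : ‖Complex.exp x‖ ≤ 2 := by
      have h2 := norm_sub_norm_le (Complex.exp x) 1
      rw [norm_one] at h2
      linarith
    calc ‖Complex.exp x‖ * ‖t‖ ≤ 2 * (ε / 2) :=
          mul_le_mul h1 ht1 (norm_nonneg _) (by norm_num)
      _ = ε := by ring
  · have e1 : (fun i => Complex.exp x * z i + Complex.exp x * t) =
        fun i => Complex.exp x * z₁ i := by
      funext i
      rw [hz₁]
      ring
    have e2 : (fun j => Complex.exp x * p j + Complex.exp x * t) =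
        fun j => Complex.exp x * p₁ j := by
      funext j
      rw [hp₁]
      ring
    rw [e1, e2]
    exact hfin

end Pool.Agent.U818.RZ
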