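import Pool.Agent.U818.RZ.Red

/-!
# Conjugation by a translation, the free critical values
-/

set_option autoImplicit false

open Polynomial MeasureTheory Set Filter Topology Metric

namespace Pool.Agent.U818.RZ

open Pool.Agent.H762R2.Rt

lemma iter_conj {X : Type*} (φ ψ f : X → X) (h : ∀ x, ψ (φ x) = x) (n : ℕ) (x : X) :
    (φ ∘ f ∘ ψ)^[n] (φ x) = φ (f^[n] x) := by
  induction n generalizing x with
  | zero => rfl
  | succ n ih =>
    rw [Function.iterate_succ_apply, Function.iterate_succ_apply]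
    have : (φ ∘ f ∘ ψ) (φ x) = φ (f x) := by simp [h]
    rw [this, ih]

/-- The hyperbolicity of `R (z + t)` implies that of `R + t`. -/
theorem hyp_add {P Q : ℂ[X]} {t : ℂ} (h : Hyp (tr P t) (tr Q t)) : Hyp (P + C t * Q) Q := by
  obtain ⟨hc, f, hf, hf1, hf2⟩ := h
  have hcop : IsCoprime P Q := by
    have h1 := tr_coprime hc (-t)
    have h2 : ∀ p : ℂ[X], tr (tr p t) (-t) = p := by
      intro p
      unfold tr
      rw [comp_assoc]
      simp
    rwa [h2, h2] at h1
  refine ⟨?_, ?_⟩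
  · exact hcop.add_mul_right_left (C t)
  set φ : OnePoint ℂ ≃ₜ OnePoint ℂ := (Homeomorph.addRight t).onePointCongr with hφ
  have hφs : ∀ z : ℂ, φ (z : OnePoint ℂ) = ((z + t : ℂ) : OnePoint ℂ) := fun z => rfl
  have hψs : ∀ z : ℂ, φ.symm (z : OnePoint ℂ) = ((z - t : ℂ) : OnePoint ℂ) := by
    intro z
    rw [Homeomorph.symm_apply_eq, hφs, sub_add_cancel]
  refine ⟨φ ∘ f ∘ φ.symm, φ.continuous.comp (hf.comp φ.symm.continuous), ?_, ?_⟩
  · intro z hz
    have h1 := hf1 (z - t) (by rw [tr_eval, sub_add_cancel]; exact hz)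
    rw [tr_eval, tr_eval, sub_add_cancel] at h1
    simp only [Function.comp_apply]
    rw [hψs, h1, hφs, eval_add, eval_mul, eval_C]
    congr 1
    field_simp
  · intro c hc'
    have h1 : ¬ ∃ U ∈ 𝓝 (φ.symm c), Set.InjOn f U := by
      rintro ⟨U, hU, hi⟩
      apply hc'
      refine ⟨φ.symm ⁻¹' U, φ.symm.continuous.continuousAt.preimage_mem_nhds hU, ?_⟩
      intro x hx y hy hxy
      simp only [Function.comp_apply] at hxy
      exact φ.symm.injective (hi hx hy (φ.injective hxy))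
    obtain ⟨z, n, hn, hz, ⟨U, hU, hU1⟩, hz2⟩ := hf2 _ h1
    have hit := iter_conj φ φ.symm f (fun x => φ.symm_apply_apply x)
    refine ⟨φ z, n, hn, ?_, ⟨φ.symm ⁻¹' U, ?_, ?_⟩, ?_⟩
    · rw [hit, hz]
    · apply φ.symm.continuous.continuousAt.preimage_mem_nhds
      rw [φ.symm_apply_apply]
      exact hU
    · intro w hw
      have h2 := (φ.continuous.tendsto z).comp (hU1 _ hw)
      refine h2.congr (fun k => ?_)
      simp only [Function.comp_apply]
      rw [← hit, φ.apply_symm_apply]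
    · have h2 := (φ.continuous.tendsto z).comp hz2
      refine h2.congr (fun k => ?_)
      simp only [Function.comp_apply]
      rw [← hit, φ.apply_symm_apply]

lemma der_eq {p : ℂ[X]} {c : ℂ} (hc : p.eval c ≠ 0) (T : Finset ℂ) (hT : ∀ b ∈ p.roots, b ∈ T) :
    p.derivative.eval c = p.eval c * ∑ b ∈ T, (p.roots.count b : ℂ) * (1 / (c - b)) := by
  classical
  rw [(IsAlgClosed.splits p).eval_derivative_eq_eval_mul_sum hc]
  congr 1
  rw [Finset.sum_multiset_map_count]
  simp only [nsmul_eq_mul]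
  apply Finset.sum_subset
  · intro b hb
    exact hT b (Multiset.mem_toFinset.1 hb)
  · intro b _ hb
    rw [Multiset.mem_toFinset] at hb
    rw [Multiset.count_eq_zero_of_notMem hb, Nat.cast_zero, zero_mul]

lemma wro_eq {P Q : ℂ[X]} {c : ℂ} (hP : P.eval c ≠ 0) (hQ : Q.eval c ≠ 0) :
    (derivative P * Q - P * derivative Q).eval c =
      P.eval c * Q.eval c * ld (Sp P Q) (mu P Q) c := by
  rw [eval_sub, eval_mul, eval_mul, der_eq hP _ (sub_left P Q), der_eq hQ _ (sub_right P Q)]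
  have : ld (Sp P Q) (mu P Q) c = ∑ b ∈ Sp P Q, (P.roots.count b : ℂ) * (1 / (c - b)) -
      ∑ b ∈ Sp P Q, (Q.roots.count b : ℂ) * (1 / (c - b)) := by
    rw [ld, ← Finset.sum_sub_distrib]
    refine Finset.sum_congr rfl (fun b _ => ?_)
    rw [mu]
    push_cast
    ring
  rw [this]
  ring

/-- The values of `P / Q` at the free critical points, and `0`. -/
noncomputable def vals (P Q : ℂ[X]) : Finset ℂ :=
  open Classical in insert 0 ((P0 (Sp P Q) (mu P Q)).roots.toFinset.image
    (fun c => P.eval c / Q.eval c))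

lemma zero_mem_vals (P Q : ℂ[X]) : (0 : ℂ) ∈ vals P Q := by
  classical
  exact Finset.mem_insert_self _ _

lemma vals_card {P Q : ℂ[X]} {k : ℕ} (hk1 : 1 ≤ k) (hk : (Sp P Q).card ≤ k) :
    (vals P Q).card ≤ k := by
  classical
  have h1 : (vals P Q).card ≤ _ := Finset.card_insert_le _ _
  have h2 := (Finset.card_image_le (s := (P0 (Sp P Q) (mu P Q)).roots.toFinset)
    (f := (fun c => P.eval c / Q.eval c))).trans (P0_roots_card (m := mu P Q) hk)
  omega

lemma free_mem_vals {P Q : ℂ[X]} (hP : P ≠ 0) (hQ : Q ≠ 0) (hD : tot (Sp P Q) (mu P Q) ≠ 0)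
    {v : ℂ} (h : Free P Q v) : v ∈ vals P Q := by
  classical
  obtain ⟨c, h1, h2, h3, rfl⟩ := h
  rw [wro_eq h1 h2] at h3
  have h4 : ld (Sp P Q) (mu P Q) c = 0 := by
    rcases mul_eq_zero.1 h3 with h | h
    · exact absurd h (mul_ne_zero h1 h2)
    · exact h
  have hS : c ∉ Sp P Q := by
    rw [mem_Sp hP hQ, not_or]
    exact ⟨h1, h2⟩
  have h5 := ld_mul (m := mu P Q) hS
  rw [h4, zero_mul] at h5
  have h0 : P0 (Sp P Q) (mu P Q) ≠ 0 := by
    intro h0
    have := P0_leadingCoeff hD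
    rw [h0, leadingCoeff_zero] at this
    exact hD (by exact_mod_cast this.symm)
  rw [vals, Finset.mem_insert]
  right
  exact Finset.mem_image_of_mem _ (Multiset.mem_toFinset.2 ((mem_roots h0).2 h5.symm))

end Pool.Agent.U818.RZ
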