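import Pool.Agent.W327.RD.Dyn

/-!
# Two trapping discs, around zero and around infinity, for a rational map `P / Q`
-/

set_option autoImplicit false

open Polynomial Filter Topology MeasureTheory
open scoped OnePoint

namespace Pool.Agent.U818.RZ

open Pool.Agent.H762R2.Rt Pool.Agent.H462R2.AP
open Pool.Agent.Helper114.Herman Pool.Agent.Helper114.Konig
open W327.RD

/-- The dynamics. -/
theorem dyn (P Q : ℂ[X]) (hcop : IsCoprime P Q) (hQ0 : Q ≠ 0) (N : ℕ)
    (hD : N = max P.natDegree Q.natDegree) (hN0 : 0 < N) (s t : ℝ) (hs : 0 < s) (ht : 0 < t)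
    (h0 : (∀ w : ℂ, ‖w‖ ≤ s → Q.eval w ≠ 0 ∧ ‖P.eval w‖ < s / 4 * ‖Q.eval w‖) ∨
      (∀ w : ℂ, ‖w‖ ≤ s → P.eval w ≠ 0 ∧ ‖Q.eval w‖ < t / 4 * ‖P.eval w‖))
    (h1 : (∀ x : ℂ, ‖x‖ ≤ t → hom Q N 1 x ≠ 0 ∧ ‖hom P N 1 x‖ < s / 4 * ‖hom Q N 1 x‖) ∨
      (∀ x : ℂ, ‖x‖ ≤ t → hom P N 1 x ≠ 0 ∧ ‖hom Q N 1 x‖ < t / 4 * ‖hom P N 1 x‖))
    (h3 : ∀ c : ℂ, Q.eval c ≠ 0 → P.eval c ≠ 0 → (wro P Q).eval c = 0 →
      (Q.eval (P.eval c / Q.eval c) ≠ 0 ∧
        ‖P.eval (P.eval c / Q.eval c)‖ ≤ s / 2 * ‖Q.eval (P.eval c / Q.eval c)‖) ∨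
      (P.eval (P.eval c / Q.eval c) ≠ 0 ∧
        ‖Q.eval (P.eval c / Q.eval c)‖ ≤ t / 2 * ‖P.eval (P.eval c / Q.eval c)‖)) :
    Hyp P Q := by
  obtain ⟨f, hf, -⟩ := exists_isRat hcop hQ0
  refine ⟨hcop, f, hf.cont, hf.eval, ?_⟩
  have hdP : P.natDegree ≤ N := hD ▸ le_max_left _ _
  have hdQ : Q.natDegree ≤ N := hD ▸ le_max_right _ _
  -- the map in the charts
  obtain ⟨nm, hnm⟩ : ∃ nm : Bool → ℂ → ℂ, nm = fun i w => if i then hom P N 1 w else P.eval w :=
    ⟨_, rfl⟩
  obtain ⟨dn, hdn⟩ : ∃ dn : Bool → ℂ → ℂ, dn = fun i w => if i then hom Q N 1 w else Q.eval w :=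
    ⟨_, rfl⟩
  obtain ⟨ρ, hρ⟩ : ∃ ρ : Bool → ℝ, ρ = fun i => if i then t else s := ⟨_, rfl⟩
  have hρ0 : ∀ i, 0 < ρ i := by
    intro i; rw [hρ]; cases i <;> simp [hs, ht]
  have hρt : ρ true = t := by rw [hρ]; simp
  have hρf : ρ false = s := by rw [hρ]; simp
  have hsc : (s : ℂ) ≠ 0 := by exact_mod_cast hs.ne'
  have htc : (t : ℂ) ≠ 0 := by exact_mod_cast ht.ne'
  have hfch : ∀ i w, f (ch i w) = pr (nm i w) (dn i w) := by
    intro i w
    cases i
    · have e1 : ch false w = pr w 1 := by rw [ch_false, pr_one]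
      rw [e1, rat_formula hf hD hN0 (Or.inr one_ne_zero), hom_ne hdP one_ne_zero,
        hom_ne hdQ one_ne_zero, hnm, hdn]
      simp
    · have e1 : ch true w = pr 1 w := by
        simp only [ch_true]
        rw [← pr_one w, sinv_pr (Or.inr one_ne_zero)]
      rw [e1, rat_formula hf hD hN0 (Or.inl one_ne_zero), hnm, hdn]
      simp
  have hnrm : ∀ i (y : ℂ), y ∈ Metric.closedBall (0 : ℂ) 1 → ‖(ρ i : ℂ) * y‖ ≤ ρ i := by
    intro i y hy
    rw [mem_closedBall_zero_iff] at hy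
    rw [norm_mul, Complex.norm_real, Real.norm_eq_abs, abs_of_pos (hρ0 i)]
    nlinarith [hρ0 i]
  have hhom : ∀ (q : ℂ[X]), Differentiable ℂ (fun w => hom q N 1 w) := by
    intro q
    unfold hom
    fun_prop
  have hnmd : ∀ i, Differentiable ℂ (nm i) := by
    intro i
    rw [hnm]
    cases i
    · simp only [Bool.false_eq_true, if_false]
      exact P.differentiable
    · simp only [if_true]
      exact hhom P
  have hdnd : ∀ i, Differentiable ℂ (dn i) := by
    intro i
    rw [hdn]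
    cases i
    · simp only [Bool.false_eq_true, if_false]
      exact Q.differentiable
    · simp only [if_true]
      exact hhom Q
  have hcase : ∀ i, (∀ y ∈ Metric.closedBall (0 : ℂ) 1, dn i (ρ i * y) ≠ 0 ∧
        ‖nm i (ρ i * y)‖ < s / 4 * ‖dn i (ρ i * y)‖) ∨
      (∀ y ∈ Metric.closedBall (0 : ℂ) 1, nm i (ρ i * y) ≠ 0 ∧
        ‖dn i (ρ i * y)‖ < t / 4 * ‖nm i (ρ i * y)‖) := by
    intro i
    cases i
    · rcases h0 with h0 | h0
      · left
        intro y hy
        have hn := hnrm false y hy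
        rw [hρf] at hn
        have := h0 _ hn
        rw [hρf, hdn, hnm]
        simpa using this
      · right
        intro y hy
        have hn := hnrm false y hy
        rw [hρf] at hn
        have := h0 _ hn
        rw [hρf, hdn, hnm]
        simpa using this
    · rcases h1 with h1 | h1
      · left
        intro y hy
        have hn := hnrm true y hy
        rw [hρt] at hn
        have := h1 _ hn
        rw [hρt, hdn, hnm]
        simpa using this
      · right
        intro y hy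
        have hn := hnrm true y hy
        rw [hρt] at hn
        have := h1 _ hn
        rw [hρt, hdn, hnm]
        simpa using this
  have hstep : ∀ i, ∃ (σ : Bool) (h : ℂ → ℂ),
      (∀ y ∈ Metric.closedBall (0 : ℂ) 1, f (ch i (ρ i * y)) = ch σ (ρ σ * h y)) ∧
      (∀ y ∈ Metric.closedBall (0 : ℂ) 1, DifferentiableAt ℂ h y) ∧
      (∀ y ∈ Metric.closedBall (0 : ℂ) 1, ‖h y‖ < 1 / 4) := by
    intro i
    have hl : ∀ y : ℂ, DifferentiableAt ℂ (fun y : ℂ => (ρ i : ℂ) * y) y := fun y =>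
      differentiableAt_id.const_mul _
    have hdnm : ∀ y : ℂ, DifferentiableAt ℂ (fun y : ℂ => nm i (ρ i * y)) y := fun y =>
      DifferentiableAt.comp y ((hnmd i) ((ρ i : ℂ) * y)) (hl y)
    have hddn : ∀ y : ℂ, DifferentiableAt ℂ (fun y : ℂ => dn i (ρ i * y)) y := fun y =>
      DifferentiableAt.comp y ((hdnd i) ((ρ i : ℂ) * y)) (hl y)
    rcases hcase i with hsm | hlg
    · refine ⟨false, fun y => nm i (ρ i * y) / dn i (ρ i * y) / s, fun y hy => ?_,
        fun y hy => ?_, fun y hy => ?_⟩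
      · rw [hfch, pr_ne (hsm y hy).1, ch_false, hρf]
        simp only
        rw [mul_div_cancel₀ _ hsc]
      · exact ((hdnm y).fun_div (hddn y) (hsm y hy).1).div_const _
      · have h5 : 0 < ‖dn i (ρ i * y)‖ := norm_pos_iff.2 (hsm y hy).1
        rw [norm_div, norm_div, Complex.norm_real, Real.norm_eq_abs, abs_of_pos hs,
          div_lt_iff₀ hs, div_lt_iff₀ h5]
        have := (hsm y hy).2
        linarith
    · refine ⟨true, fun y => dn i (ρ i * y) / nm i (ρ i * y) / t, fun y hy => ?_,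
        fun y hy => ?_, fun y hy => ?_⟩
      · rw [hfch, ch_true, hρt]
        simp only
        rw [mul_div_cancel₀ _ htc, ← pr_ne (hlg y hy).1, sinv_pr (Or.inr (hlg y hy).1)]
      · exact ((hddn y).fun_div (hdnm y) (hlg y hy).1).div_const _
      · have h5 : 0 < ‖nm i (ρ i * y)‖ := norm_pos_iff.2 (hlg y hy).1
        rw [norm_div, norm_div, Complex.norm_real, Real.norm_eq_abs, abs_of_pos ht,
          div_lt_iff₀ ht, div_lt_iff₀ h5]
        have := (hlg y hy).2
        linarith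
  choose σ h hconj hhd hhb using hstep
  have hhalf : ∀ x : ℂ, ‖x‖ ≤ 1 / 2 → x ∈ Metric.closedBall (0 : ℂ) 1 := by
    intro x hx
    rw [mem_closedBall_zero_iff]; linarith
  have hS : ∀ i (x : ℂ), ‖x‖ ≤ 1 / 2 → Sinks f (ch i (ρ i * x)) := by
    intro i x hx
    have hψc : ∀ i, Continuous (fun y : ℂ => ch i (ρ i * y)) := fun i =>
      (continuous_ch i).comp (continuous_const.mul continuous_id)
    have hψo : ∀ i, IsOpenMap (fun y : ℂ => ch i (ρ i * y)) := fun i =>
      (isOpenMap_ch i).comp (Homeomorph.mulLeft₀ (ρ i : ℂ)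
        (by exact_mod_cast (hρ0 i).ne')).isOpenMap
    exact two_charts' (ψ := fun i y => ch i (ρ i * y)) (σ := σ) (τ := fun _ => 1) (h := h)
      (r := 1 / 2) hf.cont (by norm_num) (fun _ => one_pos) hψc hψo
      (fun i x hx => by rw [Function.iterate_one]; exact hconj i x (hhalf x hx))
      (fun i x hx => (hhb i x (hhalf x hx)).trans (by norm_num))
      (fun i x y hx hy => cauchy_lip (hhd i) (hhb i) hx hy) hx
  have hsmall : ∀ v : ℂ, ‖v‖ ≤ s / 2 → Sinks f (v : OnePoint ℂ) := by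
    intro v hv
    have e1 : ch false (ρ false * (v / s)) = (v : OnePoint ℂ) := by
      rw [ch_false, hρf]
      simp only
      rw [mul_div_cancel₀ _ hsc]
    rw [← e1]
    apply hS
    rw [norm_div, Complex.norm_real, Real.norm_eq_abs, abs_of_pos hs, div_le_iff₀ hs]
    linarith
  have hlarge : ∀ u v : ℂ, u ≠ 0 → ‖v‖ ≤ t / 2 * ‖u‖ → Sinks f (pr u v) := by
    intro u v hu hv
    have e1 : ch true (ρ true * (v / u / t)) = pr u v := by
      rw [ch_true, hρt]
      simp only
      rw [mul_div_cancel₀ _ htc, ← pr_ne hu, sinv_pr (Or.inr hu)]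
    rw [← e1]
    apply hS
    have h5 : 0 < ‖u‖ := norm_pos_iff.2 hu
    rw [norm_div, norm_div, Complex.norm_real, Real.norm_eq_abs, abs_of_pos ht, div_le_iff₀ ht,
      div_le_iff₀ h5]
    linarith
  have hinf : Sinks f ∞ := by
    have := hlarge 1 0 one_ne_zero (by rw [norm_zero]; positivity)
    rwa [pr_zero] at this
  have hfw : ∀ w : ℂ, f (w : OnePoint ℂ) = pr (P.eval w) (Q.eval w) := by
    intro w
    have e1 := hfch false w
    rw [hdn, hnm, ch_false] at e1
    simpa using e1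
  have hpole : ∀ w : ℂ, Q.eval w = 0 → Sinks f (w : OnePoint ℂ) := by
    intro w hw
    apply sinks_of_image hf.cont
    rw [hfw, hw, pr_zero]
    exact hinf
  intro c hnot
  induction c using OnePoint.rec with
  | infty => exact hinf
  | coe w =>
    by_cases hp : Q.eval w = 0
    · exact hpole w hp
    by_cases hz : P.eval w = 0
    · apply sinks_of_image hf.cont
      rw [hf.eval w hp, hz, zero_div]
      exact hsmall 0 (by rw [norm_zero]; positivity)
    by_cases hW : (wro P Q).eval w = 0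
    · apply sinks_of_image hf.cont
      rw [hf.eval w hp]
      apply sinks_of_image hf.cont
      rw [hfw]
      rcases h3 w hp hz hW with ⟨h4, h5⟩ | ⟨h4, h5⟩
      · rw [pr_ne h4]
        apply hsmall
        rw [norm_div, div_le_iff₀ (norm_pos_iff.2 h4)]
        exact h5
      · exact hlarge _ _ h4 h5
    exfalso
    apply hnot
    have hder := (P.hasStrictDerivAt w).fun_div (Q.hasStrictDerivAt w) hp
    have hne : (P.derivative.eval w * Q.eval w - P.eval w * Q.derivative.eval w) /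
        (Q.eval w) ^ 2 ≠ 0 := by
      apply div_ne_zero _ (pow_ne_zero _ hp)
      have e1 : P.derivative.eval w * Q.eval w - P.eval w * Q.derivative.eval w =
          (wro P Q).eval w := by
        rw [wro]
        simp only [eval_mul, eval_sub]
      rw [e1]
      exact hW
    obtain ⟨U, hU, hinj⟩ := injOn_of_deriv hder hne
    have hUQ : {x : ℂ | Q.eval x ≠ 0} ∈ 𝓝 w :=
      (isOpen_ne_fun Q.continuous continuous_const).mem_nhds hp
    refine ⟨(fun x : ℂ => (x : OnePoint ℂ)) '' (U ∩ {x : ℂ | Q.eval x ≠ 0}), ?_, ?_⟩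
    · exact (OnePoint.isOpenEmbedding_coe (X := ℂ)).isOpenMap.image_mem_nhds
        (inter_mem hU hUQ)
    · rintro _ ⟨x, ⟨hx, hxQ⟩, rfl⟩ _ ⟨y, ⟨hy, hyQ⟩, rfl⟩ hxy
      simp only at hxy
      rw [hf.eval x hxQ, hf.eval y hyQ, OnePoint.coe_eq_coe] at hxy
      rw [hinj hx hy hxy]

end Pool.Agent.U818.RZ
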