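import Pool.Agent.U818.RZ.Conj
import Pool.Agent.U818.FC.Final

/-!
# Rational maps with few zeros and poles
-/

set_option autoImplicit false

open Polynomial MeasureTheory Set Filter Topology Metric

namespace Pool.Agent.U818.RZ

open Pool.Agent.H762R2.Rt
open Pool.Agent.U818.FC (volume_closedBall_eq zone_three zone_two)

lemma big_ev (M ρ : ℝ) : ∀ᶠ N : ℕ in atTop, Big M ρ N := by
  have h1 : ∀ᶠ N : ℕ in atTop, 12 ≤ N := eventually_ge_atTop 12
  have h2 : ∀ᶠ N : ℕ in atTop, 12 * (ρ + M) ≤ (N : ℝ) :=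
    tendsto_natCast_atTop_atTop.eventually_ge_atTop _
  have h3 : Tendsto (fun x : ℝ => Real.exp x / x ^ 8) atTop atTop :=
    Real.tendsto_exp_div_pow_atTop 8
  have h4 := (h3.comp tendsto_natCast_atTop_atTop).eventually_ge_atTop 4
  filter_upwards [h1, h2, h4] with N a b c
  refine ⟨a, b, ?_⟩
  have hN : (0 : ℝ) < (N : ℝ) ^ 8 := by
    have : (0 : ℝ) < N := by
      have : 0 < N := by omega
      exact_mod_cast this
    positivity
  simp only [Function.comp_apply] at c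
  rw [le_div_iff₀ hN] at c
  exact c

section

variable {M κ B ρ : ℝ} {N k : ℕ} {P Q : ℂ[X]}

lemma Cfg.tot_ne (h : Cfg M κ B N P Q) (hN : 0 < N) (hκ : 0 < κ) :
    tot (Sp P Q) (mu P Q) ≠ 0 ∧ κ * N ≤ |tot (Sp P Q) (mu P Q)| := by
  have hN0 : (0 : ℝ) < N := by exact_mod_cast hN
  have h1 := h.dif
  rw [← tot_eq] at h1
  refine ⟨?_, h1⟩
  intro h0
  rw [h0, abs_zero] at h1
  have : 0 < κ * N := by positivity
  linarith

lemma winSet_le (h : Cfg M κ B N P Q) (hN : 1 ≤ N) (hM1 : 1 ≤ M) (hρ : 2 * M ≤ ρ)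
    (hκ : 0 < κ) (hk : (Sp P Q).card ≤ k) {θ : ℝ} (hθ0 : 0 < θ) (hθ1 : θ ≤ 1) (v : ℂ)
    {r : ℝ} (hr : 0 ≤ r) (n : ℕ) :
    volume (winSet P Q N ρ r v) ≤ ENNReal.ofReal
      (48 * k * (10 * ρ) ^ k * (r * (8 / κ * (Real.log N / N)) / θ ^ (k - 1)) +
      ((∑ i ∈ Finset.range n, ((k - 1 : ℕ) : ℝ) *
        (48 * k * (10 * ρ) ^ k * (θ * (1 / 2) ^ i * (8 / κ * (Real.log N / N)) /
          (θ * (1 / 2) ^ (i + 1)) ^ (k - 1)))) +
        ((k - 1 : ℕ) : ℝ) * (Real.pi * (θ * (1 / 2) ^ n) ^ 2))) := by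
  have hN0 : 0 < N := by omega
  have hN0' : (0 : ℝ) < N := by exact_mod_cast hN0
  have hP := h.neP hN0
  have hQ := h.neQ hN0
  obtain ⟨hD, hD1⟩ := h.tot_ne hN0 hκ
  have hlog : 0 ≤ Real.log N := Real.log_natCast_nonneg _
  have hL0 : 0 ≤ 8 * Real.log N := by positivity
  set y : ℝ := 8 / κ * (Real.log N / N) with hy
  have hy0 : 0 ≤ y := by positivity
  have hyL : 8 * Real.log N / |tot (Sp P Q) (mu P Q)| ≤ y := by
    have h1 : y = 8 * Real.log N / (κ * N) := by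
      rw [hy]
      field_simp
    rw [h1]
    exact div_le_div_of_nonneg_left hL0 (by positivity) hD1
  have hsub : winSet P Q N ρ r v ⊆ {z : ℂ | ‖z - v‖ ≤ r ∧ ‖z‖ ≤ ρ ∧ z ∉ Sp P Q ∧
      |pot (Sp P Q) (mu P Q) (sc P Q) z| ≤ 8 * Real.log N} := by
    rintro z ⟨h1, h2, h3, h4⟩
    have hne : ¬ (P.eval z = 0 ∧ Q.eval z = 0) := by
      rintro ⟨h1, h2⟩
      obtain ⟨a, b, hab⟩ := h.cop
      have := congrArg (eval z) hab
      rw [eval_add, eval_mul, eval_mul, h1, h2, eval_one] at this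
      simp at this
    have hPz : P.eval z ≠ 0 := by
      intro h0
      apply hne
      refine ⟨h0, ?_⟩
      rw [h0, norm_zero, mul_zero] at h3
      exact norm_le_zero_iff.1 h3
    have hQz : Q.eval z ≠ 0 := by
      intro h0
      apply hne
      refine ⟨?_, h0⟩
      rw [h0, norm_zero, mul_zero] at h4
      exact norm_le_zero_iff.1 h4
    have hz : z ∉ Sp P Q := by
      rw [mem_Sp hP hQ, not_or]
      exact ⟨hPz, hQz⟩
    refine ⟨h1, h2, hz, ?_⟩
    change |U P Q z| ≤ _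
    rw [U_eq hP hQ hz]
    have n1 : 0 < ‖P.eval z‖ := norm_pos_iff.2 hPz
    have n2 : 0 < ‖Q.eval z‖ := norm_pos_iff.2 hQz
    have h8 : Real.log ((N : ℝ) ^ 8) = 8 * Real.log N := by
      rw [Real.log_pow]; push_cast; rfl
    have l3 := Real.log_le_log n2 h3
    have l4 := Real.log_le_log n1 h4
    rw [Real.log_mul (by positivity) n1.ne', h8] at l3
    rw [Real.log_mul (by positivity) n2.ne', h8] at l4
    rw [abs_le]
    constructor <;> linarith
  have hz := zone hD hk (sc P Q) (h.bd hN0) (ρ := ρ) (by linarith) hθ0 hθ1 hL0 v hr n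
  refine (measure_mono hsub).trans (hz.trans ?_)
  have hDpos : 0 < |tot (Sp P Q) (mu P Q)| := abs_pos.2 hD
  have hpow : (ρ + M) ^ k ≤ (10 * ρ) ^ k :=
    pow_le_pow_left₀ (by linarith) (by linarith) k
  have hρ0 : 0 < ρ := by linarith
  have hρM : 0 < ρ + M := by linarith
  have hterm : ∀ {a b : ℝ}, 0 ≤ a → 0 < b →
      48 * k * (ρ + M) ^ k * (a * (8 * Real.log N) / (|tot (Sp P Q) (mu P Q)| * b)) ≤
        48 * k * (10 * ρ) ^ k * (a * y / b) := by
    intro a b ha hb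
    have h1 : a * (8 * Real.log N) / (|tot (Sp P Q) (mu P Q)| * b) =
        a / b * (8 * Real.log N / |tot (Sp P Q) (mu P Q)|) := by
      field_simp
    have h2 : a * y / b = a / b * y := by ring
    rw [h1, h2]
    have h3 : 48 * (k : ℝ) * (ρ + M) ^ k ≤ 48 * k * (10 * ρ) ^ k :=
      mul_le_mul_of_nonneg_left hpow (by positivity)
    exact mul_le_mul h3 (mul_le_mul_of_nonneg_left hyL (by positivity)) (by positivity)
      (by positivity)
  rw [ENNReal.ofReal_add (by positivity) (by positivity), ENNReal.ofReal_add (by positivity)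
    (by positivity), ENNReal.ofReal_sum_of_nonneg (fun i _ => by positivity)]
  refine add_le_add ?_ (add_le_add (Finset.sum_le_sum (fun i _ => ?_)) ?_)
  · apply ENNReal.ofReal_le_ofReal
    exact hterm hr (by positivity)
  · rw [ENNReal.ofReal_mul (p := ((k - 1 : ℕ) : ℝ)) (by positivity), ENNReal.ofReal_natCast]
    refine mul_le_mul' le_rfl (ENNReal.ofReal_le_ofReal ?_)
    exact hterm (by positivity) (by positivity)
  · rw [ENNReal.ofReal_mul (p := ((k - 1 : ℕ) : ℝ)) (by positivity), ENNReal.ofReal_natCast]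

end

/-- The radius outside of which all is far. -/
noncomputable def rh (M κ B : ℝ) : ℝ := 2 * M * Real.exp (|B + 3| / κ)

lemma rh_ge {M κ B : ℝ} (hM1 : 1 ≤ M) (hκ : 0 < κ) : 2 * M ≤ rh M κ B := by
  rw [rh]
  exact le_mul_of_one_le_right (by linarith) (Real.one_le_exp (by positivity))

lemma rh_log {M κ B : ℝ} (hM1 : 1 ≤ M) (hκ : 0 < κ) : B + 3 ≤ κ * Real.log (rh M κ B) := by
  rw [rh, Real.log_mul (by positivity) (Real.exp_pos _).ne', Real.log_exp, mul_add]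
  have h1 : 0 ≤ Real.log (2 * M) := Real.log_nonneg (by linarith)
  have h2 : κ * (|B + 3| / κ) = |B + 3| := by field_simp
  rw [h2]
  have := le_abs_self (B + 3)
  have : 0 ≤ κ * Real.log (2 * M) := by positivity
  linarith

lemma log_div_tendsto (c : ℝ) : Tendsto (fun N : ℕ => c * (Real.log N / N)) atTop (𝓝 0) := by
  have h1 : Tendsto (fun x : ℝ => Real.log x / x) atTop (𝓝 0) :=
    Real.isLittleO_log_id_atTop.tendsto_div_nhds_zero
  have h2 := (h1.comp tendsto_natCast_atTop_atTop).const_mul c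
  rw [mul_zero] at h2
  exact h2

/-- The distance to the hyperbolic parameters. -/
theorem distance {M κ B : ℝ} (hM1 : 1 ≤ M) (hκ : 0 < κ) :
    ∃ K : ℝ, ∃ n₀ : ℕ, 0 < K ∧ ∀ N : ℕ, n₀ ≤ N → ∀ k : ℕ, 1 ≤ k →
      K * k * (Real.log N / N) ^ ((1 : ℝ) / k) ≤ 1 →
      ∀ P Q : ℂ[X], Cfg M κ B N P Q → (Sp P Q).card ≤ k →
      ∃ t : ℂ, ‖t‖ ≤ K * k * (Real.log N / N) ^ ((1 : ℝ) / k) ∧ Hyp (P + C t * Q) Q := by
  set ρ := rh M κ B with hρd
  have hρ := rh_ge (B := B) hM1 hκ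
  have hlogρ := rh_log (B := B) hM1 hκ
  rw [← hρd] at hρ hlogρ
  have hρ0 : 0 < ρ := by linarith
  set G : ℝ := 1 + 8 / κ with hG
  have h8κ : 0 < 8 / κ := by positivity
  have hG1 : 1 ≤ G := by linarith
  obtain ⟨n₀, hn₀⟩ := eventually_atTop.1 (big_ev M ρ)
  refine ⟨20 * ρ * 96 * G, n₀, by positivity, fun N hN k hk1 hr1 P Q h hk => ?_⟩
  have hb := hn₀ N hN
  have h12 : (12 : ℝ) ≤ N := by exact_mod_cast hb.twelve
  have hNpos : (0 : ℝ) < N := by linarith
  have hN0 : 0 < N := by exact_mod_cast hNpos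
  have hk0 : (0 : ℝ) < k := by exact_mod_cast hk1
  have hk1' : (1 : ℝ) ≤ k := by exact_mod_cast hk1
  have hlog1 : 1 ≤ Real.log N := by
    rw [Real.le_log_iff_exp_le hNpos]
    have := Real.exp_one_lt_d9
    linarith
  set ℓ : ℝ := Real.log N / N with hℓ
  have hℓ0 : 0 < ℓ := by
    have : 0 < Real.log N := by linarith
    positivity
  have hℓN : 1 / (N : ℝ) ≤ ℓ := div_le_div_of_nonneg_right hlog1 hNpos.le
  set K : ℝ := 20 * ρ * 96 * G with hK
  have hK0 : 0 < K := by positivity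
  have hK1 : 1 ≤ K := by
    have : 1 ≤ ρ := by linarith
    have : 1 ≤ ρ * G := one_le_mul_of_one_le_of_one_le this hG1
    rw [hK]
    nlinarith
  set r : ℝ := K * k * ℓ ^ ((1 : ℝ) / k) with hr
  have hr0 : 0 < r := by positivity
  have hrk : r ^ k = (K * k) ^ k * ℓ := by
    rw [hr, mul_pow (K * k), ← Real.rpow_natCast (ℓ ^ ((1 : ℝ) / k)), ← Real.rpow_mul hℓ0.le,
      one_div, inv_mul_cancel₀ hk0.ne', Real.rpow_one]
  have hKk : 1 ≤ K * k := one_le_mul_of_one_le_of_one_le hK1 hk1'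
  have hrN : 1 / (N : ℝ) ≤ r := by
    calc 1 / (N : ℝ) ≤ ℓ := hℓN
      _ ≤ (K * k) ^ k * ℓ := le_mul_of_one_le_left hℓ0.le (one_le_pow₀ hKk)
      _ = r ^ k := hrk.symm
      _ ≤ r := pow_le_of_le_one hr0.le hr1 (by omega)
  set y : ℝ := 8 / κ * ℓ with hy
  have hy0 : 0 < y := by positivity
  set A : ℝ := 48 * k * (10 * ρ) ^ k with hA
  have hA0 : 0 < A := by positivity
  -- the comparison of the constants
  have hcomp : A * (2 * k) ^ k * y ≤ r ^ k := by
    rw [hrk, hy]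
    have e1 : (48 : ℝ) * k ≤ 96 ^ k := by
      have h2 : (k : ℝ) ≤ 2 ^ k := by exact_mod_cast Nat.lt_two_pow_self.le
      have h3 : (48 : ℝ) ≤ 48 ^ k := by
        calc (48 : ℝ) = 48 ^ 1 := (pow_one _).symm
          _ ≤ _ := pow_le_pow_right₀ (by norm_num) hk1
      calc (48 : ℝ) * k ≤ 48 ^ k * 2 ^ k := mul_le_mul h3 h2 (by positivity) (by positivity)
        _ = 96 ^ k := by rw [← mul_pow]; norm_num
    have e2 : 8 / κ ≤ G ^ k := by
      calc 8 / κ ≤ G := by linarith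
        _ = G ^ 1 := (pow_one _).symm
        _ ≤ _ := pow_le_pow_right₀ hG1 hk1
    calc A * (2 * k) ^ k * (8 / κ * ℓ) = (48 * k) * (8 / κ) * ((10 * ρ) ^ k * (2 * k) ^ k * ℓ) := by
          rw [hA]; ring
      _ ≤ 96 ^ k * G ^ k * ((10 * ρ) ^ k * (2 * k) ^ k * ℓ) := by
          apply mul_le_mul_of_nonneg_right _ (by positivity)
          exact mul_le_mul e1 e2 (by positivity) (by positivity)
      _ = (K * k) ^ k * ℓ := by
          rw [← mul_pow, ← mul_pow, ← mul_assoc, ← mul_pow, hK]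
          congr 2
          ring
  set θ : ℝ := r / (2 * k) with hθ
  have hθ0 : 0 < θ := by positivity
  have hθ1 : θ ≤ 1 := by
    rw [hθ, div_le_one (by positivity)]
    linarith
  have hz : ∀ v : ℂ, volume (winSet P Q N ρ r v) ≤
      ENNReal.ofReal (r ^ 2 / (2 * k) + Real.pi * r ^ 2 / (4 * k)) := by
    intro v
    refine (winSet_le h (by omega) hM1 hρ hκ hk hθ0 hθ1 v hr0.le 0).trans
      (ENNReal.ofReal_le_ofReal ?_)
    rw [Finset.sum_range_zero, zero_add, pow_zero, mul_one, ← hℓ, ← hy, ← hA]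
    refine add_le_add ?_ ?_
    · obtain ⟨m, hm⟩ : ∃ m, k = m + 1 := ⟨k - 1, by omega⟩
      have h4 : θ ^ (k - 1) = r ^ m / (2 * k) ^ m := by
        rw [hθ, div_pow, hm, Nat.add_sub_cancel]
      have hrm : 0 < r ^ m := by positivity
      rw [h4]
      have h5 : A * (r * y / (r ^ m / (2 * k) ^ m)) =
          A * (2 * k) ^ k * y * (r ^ 2 / (2 * k * r ^ k)) := by
        have e1 : r ^ k = r ^ m * r := by rw [hm, pow_succ]
        have e2 : (2 * (k : ℝ)) ^ k = (2 * k) ^ m * (2 * k) := by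
          rw [← pow_succ, ← hm]
        rw [e1, e2]
        field_simp
      rw [h5]
      calc A * (2 * k) ^ k * y * (r ^ 2 / (2 * k * r ^ k)) ≤ r ^ k * (r ^ 2 / (2 * k * r ^ k)) :=
            mul_le_mul_of_nonneg_right hcomp (by positivity)
        _ = r ^ 2 / (2 * k) := by
            have : r ^ k ≠ 0 := by positivity
            field_simp
    · have h1 : ((k - 1 : ℕ) : ℝ) ≤ k := by exact_mod_cast Nat.sub_le k 1
      have h2 : Real.pi * r ^ 2 / (4 * k) = k * (Real.pi * θ ^ 2) := by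
        rw [hθ]
        field_simp
        ring
      rw [h2]
      exact mul_le_mul_of_nonneg_right h1 (by positivity)
  have hP := h.neP hN0
  have hQ := h.neQ hN0
  have hVk := vals_card (P := P) (Q := Q) hk1 hk
  have hred := reduction h hb hM1 hρ hκ hlogρ (vals P Q) (zero_mem_vals P Q)
    (fun v hv => free_mem_vals hP hQ (h.tot_ne hN0 hκ).1 hv) (r := r) (hr1.trans hM1)
  have hsum : ∑ v ∈ vals P Q, volume (winSet P Q N ρ r v) ≤
      ENNReal.ofReal (r ^ 2 / 2 + Real.pi * r ^ 2 / 4) := by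
    refine (Finset.sum_le_sum (fun v _ => hz v)).trans ?_
    rw [Finset.sum_const, nsmul_eq_mul]
    calc ((vals P Q).card : ENNReal) *
          ENNReal.ofReal (r ^ 2 / (2 * k) + Real.pi * r ^ 2 / (4 * k))
        ≤ (k : ENNReal) * ENNReal.ofReal (r ^ 2 / (2 * k) + Real.pi * r ^ 2 / (4 * k)) := by
          gcongr
      _ = ENNReal.ofReal (r ^ 2 / 2 + Real.pi * r ^ 2 / 4) := by
          rw [← ENNReal.ofReal_natCast, ← ENNReal.ofReal_mul (by positivity)]
          congr 1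
          field_simp
  by_contra hcon
  push Not at hcon
  have hall : closedBall (0 : ℂ) r ⊆ {t : ℂ | ‖t‖ ≤ r ∧ ¬ Hyp (tr P t) (tr Q t)} := by
    intro t ht
    rw [mem_closedBall, dist_zero_right] at ht
    exact ⟨ht, fun hh => hcon t ht (hyp_add hh)⟩
  have h1 := (measure_mono hall).trans (hred.trans (add_le_add hsum le_rfl))
  rw [volume_closedBall_eq 0 hr0.le, ← ENNReal.ofReal_add (by positivity) (by positivity),
    ENNReal.ofReal_le_ofReal_iff (by positivity)] at h1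
  have h2 : 7 / (N : ℝ) ^ 3 < r ^ 2 := by
    calc 7 / (N : ℝ) ^ 3 < N / (N : ℝ) ^ 3 :=
          div_lt_div_of_pos_right (by linarith) (by positivity)
      _ = (1 / (N : ℝ)) ^ 2 := by field_simp
      _ ≤ r ^ 2 := pow_le_pow_left₀ (by positivity) hrN 2
  have h3 : 3 < Real.pi := Real.pi_gt_three
  have h4 : 0 < r ^ 2 := by positivity
  nlinarith

/-- The area of the non-hyperbolic parameters. -/
theorem area {k : ℕ} (hk1 : 1 ≤ k) {M κ B : ℝ} (hM1 : 1 ≤ M) (hκ : 0 < κ) :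
    ∃ K : ℝ, ∃ n₀ : ℕ, 0 < K ∧ ∀ N : ℕ, n₀ ≤ N → ∀ P Q : ℂ[X], Cfg M κ B N P Q →
      (Sp P Q).card ≤ k →
      (3 ≤ k → volume {t : ℂ | ‖t‖ ≤ M ∧ ¬ Hyp (P + C t * Q) Q} ≤
        ENNReal.ofReal (K * (Real.log N / N) ^ ((2 : ℝ) / k))) ∧
      (k ≤ 2 → volume {t : ℂ | ‖t‖ ≤ M ∧ ¬ Hyp (P + C t * Q) Q} ≤
        ENNReal.ofReal (K * (Real.log N ^ 2 / N))) := by
  set ρ := rh M κ B with hρd
  have hρ := rh_ge (B := B) hM1 hκ
  have hlogρ := rh_log (B := B) hM1 hκ
  rw [← hρd] at hρ hlogρ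
  have hρ0 : 0 < ρ := by linarith
  have hρ1 : 1 ≤ ρ := by linarith
  have hk0 : (0 : ℝ) < k := by exact_mod_cast hk1
  have hk1' : (1 : ℝ) ≤ k := by exact_mod_cast hk1
  set A : ℝ := 48 * k * (10 * ρ) ^ k with hA
  have hA0 : 0 < A := by positivity
  set B₁ : ℝ := A * ρ + k * A * 2 ^ k + 4 * k * Real.pi with hB₁
  have hB₁0 : 0 < B₁ := by positivity
  set G : ℝ := 1 + 8 / κ with hG
  have h8κ : 0 < 8 / κ := by positivity
  have hG1 : 1 ≤ G := by linarith
  set B₂ : ℝ := (A * ρ + 4 * A) * G + 4 * Real.pi with hB₂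
  have hB₂0 : 0 < B₂ := by positivity
  have e1 := (log_div_tendsto G).eventually (gt_mem_nhds (by norm_num : (0 : ℝ) < 1))
  obtain ⟨n₀, hn₀⟩ := eventually_atTop.1 ((big_ev M ρ).and e1)
  refine ⟨k * (B₁ + B₂) * G + 7, n₀, by positivity, fun N hN P Q h hk => ?_⟩
  obtain ⟨hb, hy1⟩ := hn₀ N hN
  have h12 : (12 : ℝ) ≤ N := by exact_mod_cast hb.twelve
  have hNpos : (0 : ℝ) < N := by linarith
  have hN0 : 0 < N := by exact_mod_cast hNpos
  have hN1 : (1 : ℝ) ≤ N := by linarith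
  have hlog1 : 1 ≤ Real.log N := by
    rw [Real.le_log_iff_exp_le hNpos]
    have := Real.exp_one_lt_d9
    linarith
  set ℓ : ℝ := Real.log N / N with hℓ
  have hℓ0 : 0 < ℓ := by
    have : 0 < Real.log N := by linarith
    positivity
  have hℓ1 : ℓ ≤ 1 := by
    have h1 : 1 * ℓ ≤ G * ℓ := mul_le_mul_of_nonneg_right hG1 hℓ0.le
    linarith
  have hℓN : 1 / (N : ℝ) ≤ ℓ := div_le_div_of_nonneg_right hlog1 hNpos.le
  set y : ℝ := 8 / κ * ℓ with hy
  have hy0 : 0 < y := by positivity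
  have hyG : y ≤ G * ℓ := mul_le_mul_of_nonneg_right (by linarith) hℓ0.le
  have hy1' : y < 1 := by linarith
  have hN3 : 1 / (N : ℝ) ^ 3 ≤ 1 / (N : ℝ) := by
    apply one_div_le_one_div_of_le hNpos
    calc (N : ℝ) = (N : ℝ) ^ 1 := (pow_one _).symm
      _ ≤ _ := pow_le_pow_right₀ hN1 (by norm_num)
  have hN2 : 1 / (N : ℝ) ^ 2 ≤ 1 / (N : ℝ) := by
    apply one_div_le_one_div_of_le hNpos
    calc (N : ℝ) = (N : ℝ) ^ 1 := (pow_one _).symm
      _ ≤ _ := pow_le_pow_right₀ hN1 (by norm_num)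
  have hP := h.neP hN0
  have hQ := h.neQ hN0
  have hVk := vals_card (P := P) (Q := Q) hk1 hk
  have hred := reduction h hb hM1 hρ hκ hlogρ (vals P Q) (zero_mem_vals P Q)
    (fun v hv => free_mem_vals hP hQ (h.tot_ne hN0 hκ).1 hv) (r := M) le_rfl
  have hsum : ∀ W : ℝ, 0 ≤ W → (∀ v : ℂ, volume (winSet P Q N ρ ρ v) ≤
      ENNReal.ofReal W) → volume {t : ℂ | ‖t‖ ≤ M ∧ ¬ Hyp (P + C t * Q) Q} ≤
      ENNReal.ofReal (k * W + 7 / (N : ℝ) ^ 3) := by
    intro W hW hz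
    have hsub : {t : ℂ | ‖t‖ ≤ M ∧ ¬ Hyp (P + C t * Q) Q} ⊆
        {t : ℂ | ‖t‖ ≤ M ∧ ¬ Hyp (tr P t) (tr Q t)} :=
      fun t ht => ⟨ht.1, fun hh => ht.2 (hyp_add hh)⟩
    refine (measure_mono hsub).trans (hred.trans ?_)
    rw [ENNReal.ofReal_add (by positivity) (by positivity)]
    refine add_le_add ?_ le_rfl
    have hz' : ∀ v : ℂ, volume (winSet P Q N ρ M v) ≤ ENNReal.ofReal W := by
      intro v
      refine (measure_mono ?_).trans (hz v)
      rintro z ⟨h1, h2⟩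
      exact ⟨h1.trans (by linarith), h2⟩
    refine (Finset.sum_le_sum (fun v _ => hz' v)).trans ?_
    rw [Finset.sum_const, nsmul_eq_mul, ENNReal.ofReal_mul (p := (k : ℝ)) (by positivity),
      ENNReal.ofReal_natCast]
    gcongr
  constructor
  · intro hk3
    obtain ⟨n, hn⟩ := zone_three hk3 hρ1 hy0 hy1'
    have hz : ∀ v : ℂ, volume (winSet P Q N ρ ρ v) ≤
        ENNReal.ofReal (B₁ * y ^ ((2 : ℝ) / k)) := by
      intro v
      exact (winSet_le h (by omega) hM1 hρ hκ hk one_pos le_rfl v hρ0.le n).trans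
        (ENNReal.ofReal_le_ofReal hn)
    refine (hsum _ (by positivity) hz).trans (ENNReal.ofReal_le_ofReal ?_)
    have hk3' : (3 : ℝ) ≤ k := by exact_mod_cast hk3
    have hexp : (2 : ℝ) / k ≤ 1 := by
      rw [div_le_one hk0]; linarith
    have h1 : y ^ ((2 : ℝ) / k) ≤ G * ℓ ^ ((2 : ℝ) / k) := by
      calc y ^ ((2 : ℝ) / k) ≤ (G * ℓ) ^ ((2 : ℝ) / k) :=
            Real.rpow_le_rpow hy0.le hyG (by positivity)
        _ = G ^ ((2 : ℝ) / k) * ℓ ^ ((2 : ℝ) / k) := Real.mul_rpow (by positivity) hℓ0.le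
        _ ≤ G * ℓ ^ ((2 : ℝ) / k) := by
            apply mul_le_mul_of_nonneg_right _ (by positivity)
            calc G ^ ((2 : ℝ) / k) ≤ G ^ (1 : ℝ) :=
                  Real.rpow_le_rpow_of_exponent_le hG1 hexp
              _ = _ := Real.rpow_one _
    have h2 : 1 / (N : ℝ) ^ 3 ≤ ℓ ^ ((2 : ℝ) / k) := by
      refine hN3.trans (hℓN.trans ?_)
      calc ℓ = ℓ ^ (1 : ℝ) := (Real.rpow_one _).symm
        _ ≤ _ := Real.rpow_le_rpow_of_exponent_ge hℓ0 hℓ1 hexp
    have h3 : (0 : ℝ) ≤ ℓ ^ ((2 : ℝ) / k) := by positivity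
    calc k * (B₁ * y ^ ((2 : ℝ) / k)) + 7 / (N : ℝ) ^ 3
        = k * B₁ * y ^ ((2 : ℝ) / k) + 7 * (1 / (N : ℝ) ^ 3) := by ring
      _ ≤ k * B₁ * (G * ℓ ^ ((2 : ℝ) / k)) + 7 * ℓ ^ ((2 : ℝ) / k) :=
          add_le_add (mul_le_mul_of_nonneg_left h1 (by positivity))
            (mul_le_mul_of_nonneg_left h2 (by norm_num))
      _ ≤ k * (B₁ + B₂) * (G * ℓ ^ ((2 : ℝ) / k)) + 7 * ℓ ^ ((2 : ℝ) / k) := by
          gcongr
          linarith
      _ = _ := by ring
  · intro hk2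
    obtain ⟨n, hn⟩ := zone_two (N := N) hk2 hρ1 hy0 (by have := hb.twelve; omega)
    set W : ℝ := A * ρ * y + A * (4 * Real.log N) * y + 4 * Real.pi / (N : ℝ) ^ 2 with hW
    have hlog0 : 0 ≤ Real.log N := by linarith
    have hz : ∀ v : ℂ, volume (winSet P Q N ρ ρ v) ≤ ENNReal.ofReal W := by
      intro v
      exact (winSet_le h (by omega) hM1 hρ hκ hk one_pos le_rfl v hρ0.le n).trans
        (ENNReal.ofReal_le_ofReal hn)
    refine (hsum _ (by positivity) hz).trans (ENNReal.ofReal_le_ofReal ?_)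
    set S : ℝ := Real.log N ^ 2 / N with hS
    have hS1 : 1 / (N : ℝ) ≤ S := by
      rw [hS]
      exact div_le_div_of_nonneg_right (one_le_pow₀ hlog1) hNpos.le
    have hS2 : ℓ ≤ S := by
      rw [hS, hℓ]
      apply div_le_div_of_nonneg_right _ hNpos.le
      nlinarith
    have hS3 : Real.log N * ℓ = S := by rw [hS, hℓ]; ring
    have hS0 : 0 < S := lt_of_lt_of_le (by positivity) hS1
    have h1 : W ≤ B₂ * S := by
      have q1 : A * ρ * y ≤ A * ρ * G * S := by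
        calc A * ρ * y ≤ A * ρ * (G * ℓ) := mul_le_mul_of_nonneg_left hyG (by positivity)
          _ = A * ρ * G * ℓ := by ring
          _ ≤ _ := mul_le_mul_of_nonneg_left hS2 (by positivity)
      have q2 : A * (4 * Real.log N) * y ≤ 4 * A * G * S := by
        rw [← hS3]
        calc A * (4 * Real.log N) * y ≤ A * (4 * Real.log N) * (G * ℓ) :=
              mul_le_mul_of_nonneg_left hyG (by positivity)
          _ = _ := by ring
      have q3 : 4 * Real.pi / (N : ℝ) ^ 2 ≤ 4 * Real.pi * S := by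
        calc 4 * Real.pi / (N : ℝ) ^ 2 = 4 * Real.pi * (1 / (N : ℝ) ^ 2) := by ring
          _ ≤ _ := mul_le_mul_of_nonneg_left (hN2.trans hS1) (by positivity)
      calc W ≤ A * ρ * G * S + 4 * A * G * S + 4 * Real.pi * S := by
            rw [hW]
            linarith
        _ = B₂ * S := by rw [hB₂]; ring
    have h2 : 7 / (N : ℝ) ^ 3 ≤ 7 * S := by
      calc 7 / (N : ℝ) ^ 3 = 7 * (1 / (N : ℝ) ^ 3) := by ring
        _ ≤ _ := mul_le_mul_of_nonneg_left (hN3.trans hS1) (by norm_num)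
    calc k * W + 7 / (N : ℝ) ^ 3 ≤ k * (B₂ * S) + 7 * S :=
          add_le_add (mul_le_mul_of_nonneg_left h1 hk0.le) h2
      _ ≤ k * ((B₁ + B₂) * G * S) + 7 * S := by
          have h3 : B₂ * S ≤ (B₁ + B₂) * G * S := by
            apply mul_le_mul_of_nonneg_right _ hS0.le
            calc B₂ ≤ (B₁ + B₂) * 1 := by linarith
              _ ≤ _ := mul_le_mul_of_nonneg_left hG1 (by linarith)
          have := mul_le_mul_of_nonneg_left h3 hk0.le
          linarith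
      _ = _ := by ring

end Pool.Agent.U818.RZ
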