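import Pool.Agent.U818.RZ.Conj

/-!
# Hyperbolicity outside the window, refined: critical values which are close to zero do not matter
-/

set_option autoImplicit false

open Polynomial MeasureTheory Set Filter Topology Metric

namespace Pool.Agent.U818.RZ

open Pool.Agent.H762R2.Rt Pool.Agent.Helper114.Herman Pool.Agent.Helper114.Konig

section

variable {M κ B ρ : ℝ} {N : ℕ} {P Q : ℂ[X]}

/-- Hyperbolicity outside the window. -/
theorem good_hyp2 (h : Cfg M κ B N P Q) (hb : Big M ρ N) (hM1 : 1 ≤ M) (hρ : 2 * M ≤ ρ)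
    (hκ : 0 < κ) (hlog : B + 3 ≤ κ * Real.log ρ) {t : ℂ} (ht : ‖t‖ ≤ M)
    (ht1 : ∀ c ∈ Sp P Q, 1 / (N : ℝ) ^ 5 ≤ ‖t - c‖) (ht2 : ¬ Win P Q N t)
    (ht3 : ∀ v, Free P Q v → 1 / (N : ℝ) ^ 7 < ‖v‖ → ‖v + t‖ ≤ ρ → ¬ Win P Q N (v + t)) :
    Hyp (tr P t) (tr Q t) := by
  have h12 : (12 : ℝ) ≤ N := by exact_mod_cast hb.twelve
  have hN0 : (0 : ℝ) < N := by linarith
  have hN : 0 < N := by have := hb.twelve; omega
  have hP := h.neP hN
  have hQ := h.neQ hN
  have hρM : 0 < ρ + M := by linarith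
  have hρ1 : 1 ≤ ρ := by linarith
  obtain ⟨s1, s2⟩ := exp_small hb hρM
  obtain ⟨f1, f2⟩ := exp_far hb hρM
  have hspos : (0 : ℝ) < 1 / (N : ℝ) ^ 7 := by positivity
  have hTpos : (0 : ℝ) < 1 / (ρ + M) := by positivity
  have hlogN : 0 ≤ Real.log N := Real.log_natCast_nonneg _
  -- the value at a point outside of the window
  have hwin : ∀ z, z ∉ Sp P Q → ¬ Win P Q N z →
      U P Q z ≤ -(8 * Real.log N) ∨ 8 * Real.log N ≤ U P Q z := by
    intro z hz hw
    have h' := (mem_Sp hP hQ).not.1 hz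
    rw [not_or] at h'
    have h1 : 0 < ‖P.eval z‖ := norm_pos_iff.2 h'.1
    have h2 : 0 < ‖Q.eval z‖ := norm_pos_iff.2 h'.2
    have h8 : Real.log ((N : ℝ) ^ 8) = 8 * Real.log N := by
      rw [Real.log_pow]; push_cast; rfl
    rw [Win, not_and_or, not_le, not_le] at hw
    rw [U_eq hP hQ hz]
    rcases hw with hw | hw
    · left
      have := Real.log_lt_log (by positivity) hw
      rw [Real.log_mul (by positivity) h1.ne', h8] at this
      linarith
    · right
      have := Real.log_lt_log (by positivity) hw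
      rw [Real.log_mul (by positivity) h2.ne', h8] at this
      linarith
  have hts : t ∉ Sp P Q := by
    intro hc
    have := ht1 t hc
    rw [sub_self, norm_zero] at this
    have h5 : (0 : ℝ) < 1 / (N : ℝ) ^ 5 := by positivity
    linarith
  have hfarS : ∀ z : ℂ, ρ ≤ ‖z‖ → z ∉ Sp P Q := by
    intro z hz hc
    have := h.bd hN z hc
    linarith
  have hδ : (0 : ℝ) < 1 / (N : ℝ) ^ 5 := by positivity
  have hs2 : 2 * (1 / (N : ℝ) ^ 7) ≤ 1 / (N : ℝ) ^ 5 := by
    rw [mul_one_div, div_le_div_iff₀ (by positivity) (by positivity)]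
    have : (N : ℝ) ^ 7 = (N : ℝ) ^ 2 * (N : ℝ) ^ 5 := by ring
    rw [this, one_mul]
    exact mul_le_mul_of_nonneg_right (by nlinarith) (by positivity)
  have hsN : 4 * N * (1 / (N : ℝ) ^ 7) ≤ 1 / (N : ℝ) ^ 5 := by
    rw [mul_one_div, div_le_div_iff₀ (by positivity) (by positivity)]
    have : (N : ℝ) ^ 7 = N * N * (N : ℝ) ^ 5 := by ring
    rw [this]
    nlinarith [pow_pos hN0 5, mul_pos hN0 (pow_pos hN0 5)]
  have hdeg : N = max (tr P t).natDegree (tr Q t).natDegree := by
    rw [tr_natDegree, tr_natDegree, h.deg]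
  have hQt : tr Q t ≠ 0 := by
    intro h0
    have h1 : (tr Q t).eval 0 = 0 := by rw [h0]; simp
    rw [tr_eval, zero_add] at h1
    exact hts ((mem_Sp hP hQ).2 (Or.inr h1))
  refine dyn (tr P t) (tr Q t) (tr_coprime h.cop t) hQt N hdeg hN (1 / (N : ℝ) ^ 7)
    (1 / (ρ + M)) hspos hTpos ?_ ?_ ?_
  · rcases hwin t hts ht2 with h1 | h1
    · left
      intro w hw
      obtain ⟨n1, n2⟩ := h.near hN hδ ht1 hs2 hsN hw
      have n3 := abs_le.1 n1
      have n4 := small_of_U hP hQ n2 (y := 8 * Real.log N - 1) (by linarith [n3.2])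
      have n5 : Q.eval (w + t) ≠ 0 := fun h0 => n2 ((mem_Sp hP hQ).2 (Or.inr h0))
      rw [tr_eval, tr_eval]
      exact ⟨n5, n4.trans_lt (mul_lt_mul_of_pos_right s1 (norm_pos_iff.2 n5))⟩
    · right
      intro w hw
      obtain ⟨n1, n2⟩ := h.near hN hδ ht1 hs2 hsN hw
      have n3 := abs_le.1 n1
      have n4 := large_of_U hP hQ n2 (y := 8 * Real.log N - 1) (by linarith [n3.1])
      have n5 : P.eval (w + t) ≠ 0 := fun h0 => n2 ((mem_Sp hP hQ).2 (Or.inl h0))
      rw [tr_eval, tr_eval]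
      exact ⟨n5, n4.trans_lt (mul_lt_mul_of_pos_right s2 (norm_pos_iff.2 n5))⟩
  · -- near infinity
    have hdP : (tr P t).natDegree ≤ N := by rw [hdeg]; exact le_max_left _ _
    have hdQ : (tr Q t).natDegree ≤ N := by rw [hdeg]; exact le_max_right _ _
    have hz : ∀ x : ℂ, x ≠ 0 → ‖x‖ ≤ 1 / (ρ + M) → ρ ≤ ‖1 / x + t‖ := by
      intro x hx0 hx
      have h1 : 0 < ‖x‖ := norm_pos_iff.2 hx0
      have h2 : ρ + M ≤ ‖1 / x‖ := by
        rw [norm_div, norm_one, le_div_iff₀ h1]
        rw [le_div_iff₀ hρM] at hx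
        linarith
      have h3 := norm_sub_le (1 / x + t) t
      rw [add_sub_cancel_right] at h3
      linarith
    have hdne : P.natDegree ≠ Q.natDegree := by
      intro h0
      have h1 := h.dif
      rw [h0, sub_self, abs_zero] at h1
      have : 0 < κ * N := by positivity
      linarith
    rcases lt_or_gt_of_ne hdne with hd | hd
    · left
      intro x hx
      have hQN : Q.natDegree = N := by
        have := h.deg
        rw [max_eq_right hd.le] at this
        exact this
      by_cases hx0 : x = 0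
      · rw [hx0, hom_zero', hom_zero']
        have h1 : (tr P t).coeff N = 0 :=
          coeff_eq_zero_of_natDegree_lt (by rw [tr_natDegree]; omega)
        have h2 : (tr Q t).coeff N ≠ 0 := by
          have : (tr Q t).natDegree = N := by rw [tr_natDegree, hQN]
          rw [← this]
          exact leadingCoeff_ne_zero.2 hQt
        rw [h1, norm_zero]
        exact ⟨h2, mul_pos (by positivity) (norm_pos_iff.2 h2)⟩
      · rw [hom_ne hdP hx0, hom_ne hdQ hx0, tr_eval, tr_eval]
        have h1 := hz x hx0 hx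
        have h2 := (h.far hN hρ hρ1 hκ hlog h1).2 (by exact_mod_cast hd)
        have h3 := small_of_U hP hQ (hfarS _ h1) h2
        have h4 : Q.eval (1 / x + t) ≠ 0 := fun h0 =>
          hfarS _ h1 ((mem_Sp hP hQ).2 (Or.inr h0))
        have h5 : 0 < ‖x ^ N‖ := norm_pos_iff.2 (pow_ne_zero _ hx0)
        refine ⟨mul_ne_zero (pow_ne_zero _ hx0) h4, ?_⟩
        rw [norm_mul, norm_mul, mul_left_comm]
        exact mul_lt_mul_of_pos_left
          (h3.trans_lt (mul_lt_mul_of_pos_right f1 (norm_pos_iff.2 h4))) h5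
    · right
      intro x hx
      have hPN : P.natDegree = N := by
        have := h.deg
        rw [max_eq_left hd.le] at this
        exact this
      have hPt : tr P t ≠ 0 := by
        intro h0
        have h1 : (tr P t).eval 0 = 0 := by rw [h0]; simp
        rw [tr_eval, zero_add] at h1
        exact hts ((mem_Sp hP hQ).2 (Or.inl h1))
      by_cases hx0 : x = 0
      · rw [hx0, hom_zero', hom_zero']
        have h1 : (tr Q t).coeff N = 0 :=
          coeff_eq_zero_of_natDegree_lt (by rw [tr_natDegree]; omega)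
        have h2 : (tr P t).coeff N ≠ 0 := by
          have : (tr P t).natDegree = N := by rw [tr_natDegree, hPN]
          rw [← this]
          exact leadingCoeff_ne_zero.2 hPt
        rw [h1, norm_zero]
        exact ⟨h2, mul_pos (by positivity) (norm_pos_iff.2 h2)⟩
      · rw [hom_ne hdP hx0, hom_ne hdQ hx0, tr_eval, tr_eval]
        have h1 := hz x hx0 hx
        have h2 := (h.far hN hρ hρ1 hκ hlog h1).1 (by exact_mod_cast hd)
        have h3 := large_of_U hP hQ (hfarS _ h1) h2
        have h4 : P.eval (1 / x + t) ≠ 0 := fun h0 =>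
          hfarS _ h1 ((mem_Sp hP hQ).2 (Or.inl h0))
        have h5 : 0 < ‖x ^ N‖ := norm_pos_iff.2 (pow_ne_zero _ hx0)
        refine ⟨mul_ne_zero (pow_ne_zero _ hx0) h4, ?_⟩
        rw [norm_mul, norm_mul, mul_left_comm]
        exact mul_lt_mul_of_pos_left
          (h3.trans_lt (mul_lt_mul_of_pos_right f2 (norm_pos_iff.2 h4))) h5
  · -- the free critical values
    intro c hc1 hc2 hc3
    rw [tr_eval] at hc1 hc2
    rw [tr_wro] at hc3
    rw [tr_eval, tr_eval]
    set v := P.eval (c + t) / Q.eval (c + t) with hv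
    rw [tr_eval, tr_eval]
    have hfree : Free P Q v := ⟨c + t, hc2, hc1, hc3, hv⟩
    have hsm : ∀ {y : ℝ}, v + t ∉ Sp P Q → U P Q (v + t) ≤ -y →
        Real.exp (-y) ≤ 1 / (N : ℝ) ^ 7 / 2 →
        (Q.eval (v + t) ≠ 0 ∧
          ‖P.eval (v + t)‖ ≤ 1 / (N : ℝ) ^ 7 / 2 * ‖Q.eval (v + t)‖) := by
      intro y h1 h2 h3
      exact ⟨fun h0 => h1 ((mem_Sp hP hQ).2 (Or.inr h0)), (small_of_U hP hQ h1 h2).trans
        (mul_le_mul_of_nonneg_right h3 (norm_nonneg _))⟩
    have hlg : ∀ {y : ℝ}, v + t ∉ Sp P Q → y ≤ U P Q (v + t) →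
        Real.exp (-y) ≤ 1 / (ρ + M) / 2 →
        (P.eval (v + t) ≠ 0 ∧
          ‖Q.eval (v + t)‖ ≤ 1 / (ρ + M) / 2 * ‖P.eval (v + t)‖) := by
      intro y h1 h2 h3
      exact ⟨fun h0 => h1 ((mem_Sp hP hQ).2 (Or.inl h0)), (large_of_U hP hQ h1 h2).trans
        (mul_le_mul_of_nonneg_right h3 (norm_nonneg _))⟩
    have hexp8 : Real.exp (-(8 * Real.log N)) ≤ Real.exp (-(8 * Real.log N - 1)) := by
      rw [Real.exp_le_exp]; linarith
    by_cases hS : v + t ∈ Sp P Q
    · have hne : ¬ (P.eval (v + t) = 0 ∧ Q.eval (v + t) = 0) := by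
        rintro ⟨h1, h2⟩
        obtain ⟨a, b, hab⟩ := h.cop
        have := congrArg (eval (v + t)) hab
        rw [eval_add, eval_mul, eval_mul, h1, h2, eval_one] at this
        simp at this
      rcases (mem_Sp hP hQ).1 hS with h1 | h1
      · left
        refine ⟨fun h0 => hne ⟨h1, h0⟩, ?_⟩
        rw [h1, norm_zero]
        positivity
      · right
        refine ⟨fun h0 => hne ⟨h0, h1⟩, ?_⟩
        rw [h1, norm_zero]
        positivity
    by_cases hv7 : ‖v‖ ≤ 1 / (N : ℝ) ^ 7
    · obtain ⟨n1, n2⟩ := h.near hN hδ ht1 hs2 hsN hv7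
      have n3 := abs_le.1 n1
      rcases hwin t hts ht2 with h1 | h1
      · left
        exact hsm (y := 8 * Real.log N - 1) n2 (by linarith [n3.2]) (by linarith)
      · right
        exact hlg (y := 8 * Real.log N - 1) n2 (by linarith [n3.1]) (by linarith)
    push Not at hv7
    by_cases hvr : ‖v + t‖ ≤ ρ
    · rcases hwin _ hS (ht3 v hfree hv7 hvr) with h1 | h1
      · left
        exact hsm hS h1 (by linarith)
      · right
        exact hlg hS h1 (by linarith)
    · push Not at hvr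
      have h1 := h.far hN hρ hρ1 hκ hlog hvr.le
      have hdne : P.natDegree ≠ Q.natDegree := by
        intro h0
        have h1 := h.dif
        rw [h0, sub_self, abs_zero] at h1
        have : 0 < κ * N := by positivity
        linarith
      rcases lt_or_gt_of_ne hdne with hd | hd
      · left
        exact hsm hS (h1.2 (by exact_mod_cast hd)) (by linarith)
      · right
        exact hlg hS (h1.1 (by exact_mod_cast hd)) (by linarith)

end

end Pool.Agent.U818.RZ
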