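import Pool.Agent.U818.RZ.Good2
import Pool.Agent.U818.RZ.Fin
import Pool.Agent.W721.RD.C2M
import Pool.Agent.W349.CD.NU

/-!
# The multiples of a rational map
-/

set_option autoImplicit false

open Polynomial MeasureTheory Set Filter Topology Metric

namespace Pool.Agent.U818.RZ

open Pool.Agent.H762R2.Rt Pool.Agent.W751.CD

/-- The free critical values. -/
def freeVals (P Q : ℂ[X]) : Set ℂ := {v : ℂ | Free P Q v}

section

variable {M κ B ρ : ℝ} {N : ℕ} {P Q : ℂ[X]}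

lemma Sp_mul {a : ℂ} (ha : a ≠ 0) (P Q : ℂ[X]) : Sp (C a * P) Q = Sp P Q := by
  rw [Sp, Sp, roots_C_mul _ ha]

lemma Cfg.mul (h : Cfg M κ B N P Q) {a : ℂ} (ha : a ≠ 0) (hl : |Real.log ‖a‖| ≤ N) (hN : 0 < N) :
    Cfg M κ (B + 1) N (C a * P) Q where
  cop := by
    have : IsUnit (C a) := isUnit_C.2 (isUnit_iff_ne_zero.2 ha)
    exact (isCoprime_mul_unit_left_left this P Q).2 h.cop
  deg := by rw [natDegree_C_mul ha]; exact h.deg
  rt := by
    intro c hc
    apply h.rt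
    rw [mul_assoc, eval_mul, eval_C] at hc
    exact (mul_eq_zero.1 hc).resolve_left ha
  dif := by rw [natDegree_C_mul ha]; exact h.dif
  lc := by
    have hP := h.neP hN
    rw [leadingCoeff_mul, leadingCoeff_C, norm_mul,
      Real.log_mul (norm_ne_zero_iff.2 ha) (norm_ne_zero_iff.2 (leadingCoeff_ne_zero.2 hP))]
    have h1 := abs_le.1 h.lc
    have h2 := abs_le.1 hl
    rw [abs_le]
    constructor
    · linarith [h1.1, h2.1]
    · linarith [h1.2, h2.2]

lemma free_mul {a v : ℂ} (h : Free (C a * P) Q v) : ∃ b, Free P Q b ∧ v = a * b := by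
  obtain ⟨c, h1, h2, h3, h4⟩ := h
  rw [eval_mul, eval_C] at h1 h4
  have ha : a ≠ 0 := left_ne_zero_of_mul h1
  refine ⟨P.eval c / Q.eval c, ⟨c, right_ne_zero_of_mul h1, h2, ?_, rfl⟩, ?_⟩
  · rw [derivative_C_mul] at h3
    have h5 : (C a * derivative P * Q - C a * P * derivative Q).eval c =
        a * (derivative P * Q - P * derivative Q).eval c := by
      simp only [eval_sub, eval_mul, eval_C]
      ring
    rw [h5] at h3
    exact (mul_eq_zero.1 h3).resolve_left ha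
  · rw [h4, mul_div_assoc]

lemma win_cases {a w : ℂ} (hcop : IsCoprime P Q) (ha : a ≠ 0) (h : Win (C a * P) Q N w)
    (hN : 0 < N) :
    P.eval w ≠ 0 ∧ Q.eval w ≠ 0 ∧ 1 / (N : ℝ) ^ 8 ≤ ‖a‖ * ‖P.eval w / Q.eval w‖ ∧
      ‖a‖ * ‖P.eval w / Q.eval w‖ ≤ (N : ℝ) ^ 8 := by
  have hN0 : (0 : ℝ) < N := by exact_mod_cast hN
  obtain ⟨h3, h4⟩ := h
  rw [eval_mul, eval_C, norm_mul] at h3 h4
  have ha0 : 0 < ‖a‖ := norm_pos_iff.2 ha
  have hne : ¬ (P.eval w = 0 ∧ Q.eval w = 0) := by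
    rintro ⟨h1, h2⟩
    obtain ⟨a, b, hab⟩ := hcop
    have := congrArg (eval w) hab
    rw [eval_add, eval_mul, eval_mul, h1, h2, eval_one] at this
    simp at this
  have hPz : P.eval w ≠ 0 := by
    intro h0
    apply hne
    refine ⟨h0, ?_⟩
    rw [h0, norm_zero, mul_zero, mul_zero] at h3
    exact norm_le_zero_iff.1 h3
  have hQz : Q.eval w ≠ 0 := by
    intro h0
    apply hne
    refine ⟨?_, h0⟩
    rw [h0, norm_zero, mul_zero] at h4
    have h5 : ‖a‖ * ‖P.eval w‖ = 0 := le_antisymm h4 (by positivity)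
    exact norm_eq_zero.1 ((mul_eq_zero.1 h5).resolve_left ha0.ne')
  have n2 : 0 < ‖Q.eval w‖ := norm_pos_iff.2 hQz
  refine ⟨hPz, hQz, ?_, ?_⟩
  · rw [norm_div, ← mul_div_assoc, div_le_div_iff₀ (by positivity) n2, one_mul]
    linarith
  · rw [norm_div, ← mul_div_assoc, div_le_iff₀ n2]
    exact h4

/-- The logarithmic area of the non-hyperbolic multiples. -/
theorem mult_area (h : Cfg M κ B N P Q) (hb : Big M ρ N) (hM1 : 1 ≤ M) (hρ : 2 * M ≤ ρ)
    (hκ : 0 < κ) (hlog : B + 1 + 3 ≤ κ * Real.log ρ)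
    (h0 : ∀ c ∈ Sp P Q, 1 / (N : ℝ) ^ 5 ≤ ‖c‖) {k : ℕ} (hk1 : 1 ≤ k) (J : Finset ℂ)
    (hJ : ∀ v, Free P Q v → v ∈ J) (hJ0 : ∀ v ∈ J, v ≠ 0) (hJk : J.card ≤ k) :
    nu {a : ℂ | a ≠ 0 ∧ |Real.log ‖a‖| ≤ N ∧ ¬ Hyp (C a * P) Q} ≤
      ENNReal.ofReal (2 * Real.pi * (73 * (Real.sqrt k * Real.log N))) := by
  have hNU := W349.CD.NU_holds
  have h12 : (12 : ℝ) ≤ N := by exact_mod_cast hb.twelve
  have hN0 : (0 : ℝ) < N := by linarith
  have hN : 0 < N := by exact_mod_cast hN0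
  have hP := h.neP hN
  have hQ := h.neQ hN
  have h0S : (0 : ℂ) ∉ Sp P Q := by
    intro hc
    have h1 := h0 0 hc
    rw [norm_zero] at h1
    have : 0 < 1 / (N : ℝ) ^ 5 := by positivity
    linarith
  have h0' := (mem_Sp hP hQ).not.1 h0S
  rw [not_or] at h0'
  set r0 : ℝ := ‖P.eval 0 / Q.eval 0‖ with hr0
  have hr0pos : 0 < r0 := norm_pos_iff.2 (div_ne_zero h0'.1 h0'.2)
  set s₁ : ℝ := 1 / (N : ℝ) ^ 8 with hs₁
  set R₁ : ℝ := (N : ℝ) ^ 8 with hR₁
  have hs0 : 0 < s₁ := by positivity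
  have hR1 : 1 < R₁ := one_lt_pow₀ (by linarith) (by norm_num)
  have hs1 : s₁ < 1 := by
    rw [hs₁, div_lt_one (by positivity)]
    exact hR1
  have hsR : s₁ < R₁ := hs1.trans hR1
  have hlogq : Real.log (R₁ / s₁) = 16 * Real.log N := by
    rw [hR₁, hs₁, div_div_eq_mul_div, div_one, ← pow_add, Real.log_pow]
    norm_num
  have hlog1 : 1 ≤ Real.log N := by
    rw [Real.le_log_iff_exp_le hN0]
    have := Real.exp_one_lt_d9
    linarith
  set f : ℂ → ℝ := fun w => ‖P.eval w / Q.eval w‖ with hf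
  have hfm : Measurable f := by
    have m1 : Measurable (fun w : ℂ => P.eval w) := P.continuous.measurable
    have m2 : Measurable (fun w : ℂ => Q.eval w) := Q.continuous.measurable
    exact (m1.div m2).norm
  have hcov : {a : ℂ | a ≠ 0 ∧ |Real.log ‖a‖| ≤ N ∧ ¬ Hyp (C a * P) Q} ⊆
      {a : ℂ | s₁ / r0 ≤ ‖a‖ ∧ ‖a‖ ≤ R₁ / r0} ∪
        ⋃ b ∈ J, {a : ℂ | s₁ ≤ ‖a * b‖ ∧ ‖a * b‖ ≤ R₁ ∧
          s₁ ≤ ‖a‖ * f (a * b) ∧ ‖a‖ * f (a * b) ≤ R₁} := by
    rintro a ⟨ha, hal, hnot⟩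
    by_contra hcon
    rw [mem_union, not_or] at hcon
    obtain ⟨c1, c2⟩ := hcon
    apply hnot
    have hC := h.mul ha hal hN
    have hg := good_hyp2 hC hb hM1 hρ hκ hlog (t := 0) (by rw [norm_zero]; linarith) ?_ ?_ ?_
    · have e : ∀ p : ℂ[X], tr p 0 = p := by
        intro p
        unfold tr
        simp
      rwa [e, e] at hg
    · intro c hc
      rw [Sp_mul ha] at hc
      rw [zero_sub, norm_neg]
      exact h0 c hc
    · intro hw
      obtain ⟨-, -, w3, w4⟩ := win_cases h.cop ha hw hN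
      apply c1
      rw [mem_ofPred_eq, div_le_iff₀ hr0pos, le_div_iff₀ hr0pos]
      exact ⟨w3, w4⟩
    · intro v hv hv7 hvρ hw
      rw [add_zero] at hvρ hw
      obtain ⟨b, hb1, hb2⟩ := free_mul hv
      obtain ⟨-, -, w3, w4⟩ := win_cases h.cop ha hw hN
      apply c2
      refine mem_iUnion₂.2 ⟨b, hJ b hb1, ?_⟩
      rw [hb2] at hv7 hvρ w3 w4
      refine ⟨?_, ?_, w3, w4⟩
      · refine le_trans ?_ hv7.le
        apply one_div_le_one_div_of_le (by positivity)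
        exact pow_le_pow_right₀ (by linarith) (by norm_num)
      · refine hvρ.trans ?_
        have h1 := hb.rho
        calc ρ ≤ 12 * (ρ + M) := by linarith
          _ ≤ N := h1
          _ = (N : ℝ) ^ 1 := (pow_one _).symm
          _ ≤ R₁ := pow_le_pow_right₀ (by linarith) (by norm_num)
  have e1 : nu {a : ℂ | s₁ / r0 ≤ ‖a‖ ∧ ‖a‖ ≤ R₁ / r0} =
      ENNReal.ofReal (2 * Real.pi * (16 * Real.log N)) := by
    rw [hNU.1 _ _ (by positivity) (div_le_div_of_nonneg_right hsR.le hr0pos.le)]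
    congr 2
    rw [← hlogq]
    congr 1
    field_simp
  have e2 := Pool.Agent.W721.RD.C2M_holds hNU f hfm (fun u => norm_nonneg _) s₁ R₁ hs0 hsR J hJ0
    k hk1 hJk
  rw [hlogq] at e2
  refine (measure_mono hcov).trans ((measure_union_le _ _).trans ?_)
  rw [e1]
  refine (add_le_add le_rfl e2).trans ?_
  have hsk : 1 ≤ Real.sqrt k := by
    rw [Real.one_le_sqrt]
    exact_mod_cast hk1
  rw [← ENNReal.ofReal_add (by positivity) (by positivity)]
  apply ENNReal.ofReal_le_ofReal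
  have h3 : Real.sqrt 3 ≤ 1.7321 := by
    rw [Real.sqrt_le_left (by norm_num)]
    norm_num
  have hpi := Real.pi_pos
  have k1 : 2 * Real.pi * (16 * Real.log N) ≤ 2 * Real.pi * (16 * (Real.sqrt k * Real.log N)) := by
    have : Real.log N ≤ Real.sqrt k * Real.log N := le_mul_of_one_le_left (by linarith) hsk
    gcongr
  have k2 : 4 * Real.sqrt 3 * Real.pi * (16 * Real.log N) * Real.sqrt k ≤
      2 * Real.pi * (56 * (Real.sqrt k * Real.log N)) := by
    have h4 : 0 ≤ Real.pi * (Real.sqrt k * Real.log N) := by positivity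
    calc 4 * Real.sqrt 3 * Real.pi * (16 * Real.log N) * Real.sqrt k =
          64 * Real.sqrt 3 * (Real.pi * (Real.sqrt k * Real.log N)) := by ring
      _ ≤ 112 * (Real.pi * (Real.sqrt k * Real.log N)) :=
          mul_le_mul_of_nonneg_right (by linarith) h4
      _ = _ := by ring
  have k3 : 0 ≤ 2 * Real.pi * (Real.sqrt k * Real.log N) := by positivity
  nlinarith

end

end Pool.Agent.U818.RZ
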