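import Pool.Agent.U818.RZ.Mul

/-!
# Affine perturbations of rational maps with a zero or pole of large order at infinity
-/

set_option autoImplicit false

open Polynomial MeasureTheory Set Filter Topology Metric

namespace Pool.Agent.U818.RZ

open Pool.Agent.H762R2.Rt Pool.Agent.W751.CD

/-- Conjugation by a homeomorphism of the plane. -/
theorem hyp_homeo (e : ℂ ≃ₜ ℂ) {P Q P' Q' : ℂ[X]} (hcop : IsCoprime P' Q')
    (hv : ∀ w : ℂ, Q'.eval (e w) ≠ 0 →
      Q.eval w ≠ 0 ∧ P'.eval (e w) / Q'.eval (e w) = e (P.eval w / Q.eval w))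
    (h : Hyp P Q) : Hyp P' Q' := by
  obtain ⟨-, f, hf, hf1, hf2⟩ := h
  refine ⟨hcop, ?_⟩
  set φ : OnePoint ℂ ≃ₜ OnePoint ℂ := e.onePointCongr with hφ
  have hφs : ∀ z : ℂ, φ (z : OnePoint ℂ) = ((e z : ℂ) : OnePoint ℂ) := fun z => rfl
  have hψs : ∀ z : ℂ, φ.symm (z : OnePoint ℂ) = ((e.symm z : ℂ) : OnePoint ℂ) := by
    intro z
    rw [Homeomorph.symm_apply_eq, hφs, e.apply_symm_apply]
  refine ⟨φ ∘ f ∘ φ.symm, φ.continuous.comp (hf.comp φ.symm.continuous), ?_, ?_⟩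
  · intro z hz
    have hz' : Q'.eval (e (e.symm z)) ≠ 0 := by rw [e.apply_symm_apply]; exact hz
    obtain ⟨h1, h2⟩ := hv _ hz'
    have h3 := hf1 (e.symm z) h1
    simp only [Function.comp_apply]
    rw [hψs, h3, hφs, ← h2, e.apply_symm_apply]
  · intro c hc'
    have h1 : ¬ ∃ U ∈ 𝓝 (φ.symm c), Set.InjOn f U := by
      rintro ⟨U, hU, hi⟩
      apply hc'
      refine ⟨φ.symm ⁻¹' U, φ.symm.continuous.continuousAt.preimage_mem_nhds hU, ?_⟩
      intro x hx y hy hxy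
      simp only [Function.comp_apply] at hxy
      exact φ.symm.injective (hi hx hy (φ.injective hxy))
    obtain ⟨z, n, hn, hz, ⟨U, hU, hU1⟩, hz2⟩ := hf2 _ h1
    have hit := iter_conj φ φ.symm f (fun x => φ.symm_apply_apply x)
    refine ⟨φ z, n, hn, ?_, ⟨φ.symm ⁻¹' U, ?_, ?_⟩, ?_⟩
    · rw [hit, hz]
    · apply φ.symm.continuous.continuousAt.preimage_mem_nhds
      rw [φ.symm_apply_apply]
      exact hU
    · intro w hw
      have h2 := (φ.continuous.tendsto z).comp (hU1 _ hw)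
      refine h2.congr (fun k => ?_)
      simp only [Function.comp_apply]
      rw [← hit, φ.apply_symm_apply]
    · have h2 := (φ.continuous.tendsto z).comp hz2
      refine h2.congr (fun k => ?_)
      simp only [Function.comp_apply]
      rw [← hit, φ.apply_symm_apply]

/-- The monic polynomial with roots `z i`. -/
noncomputable def W {n : ℕ} (z : Fin n → ℂ) : ℂ[X] := ∏ i, (X - C (z i))

lemma W_eval {n : ℕ} (z : Fin n → ℂ) (w : ℂ) : (W z).eval w = ∏ i, (w - z i) := by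
  simp [W, eval_prod]

lemma W_monic {n : ℕ} (z : Fin n → ℂ) : (W z).Monic :=
  monic_prod_of_monic _ _ fun i _ => monic_X_sub_C _

lemma W_natDegree {n : ℕ} (z : Fin n → ℂ) : (W z).natDegree = n := by
  unfold W
  rw [natDegree_prod_of_monic _ _ fun i _ => monic_X_sub_C _]
  simp

lemma W_eval_zero {n : ℕ} {z : Fin n → ℂ} {w : ℂ} (h : (W z).eval w = 0) : ∃ i, w = z i := by
  rw [W_eval, Finset.prod_eq_zero_iff] at h
  obtain ⟨i, -, h⟩ := h
  exact ⟨i, sub_eq_zero.1 h⟩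

lemma W_coprime {m n : ℕ} {z : Fin m → ℂ} {p : Fin n → ℂ} {a : ℂ} (ha : a ≠ 0)
    (h : ∀ i j, z i ≠ p j) : IsCoprime (C a * W z) (W p) := by
  have h1 : IsUnit (C a) := isUnit_C.2 (isUnit_iff_ne_zero.2 ha)
  refine (isCoprime_mul_unit_left_left h1 _ _).2 ?_
  unfold W
  refine IsCoprime.prod_left fun i _ => IsCoprime.prod_right fun j _ => ?_
  exact isCoprime_X_sub_C_of_isUnit_sub (sub_ne_zero.mpr (h i j)).isUnit

lemma W_cfg {m n : ℕ} {z : Fin m → ℂ} {p : Fin n → ℂ} {a : ℂ} {M κ B : ℝ} (ha : a ≠ 0)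
    (h : ∀ i j, z i ≠ p j) (hz : ∀ i, ‖z i‖ ≤ M) (hp : ∀ j, ‖p j‖ ≤ M)
    (hd : κ * (max m n : ℕ) ≤ |(m : ℝ) - n|) (hl : |Real.log ‖a‖| ≤ B * (max m n : ℕ)) :
    Cfg M κ B (max m n) (C a * W z) (W p) where
  cop := W_coprime ha h
  deg := by rw [natDegree_C_mul ha, W_natDegree, W_natDegree]
  rt := by
    intro c hc
    rw [eval_mul, eval_mul, eval_C, mul_eq_zero, mul_eq_zero] at hc
    rcases hc with (hc | hc) | hc
    · exact absurd hc ha
    · obtain ⟨i, rfl⟩ := W_eval_zero hc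
      exact hz i
    · obtain ⟨i, rfl⟩ := W_eval_zero hc
      exact hp i
  dif := by rw [natDegree_C_mul ha, W_natDegree, W_natDegree]; exact hd
  lc := by
    rw [leadingCoeff_mul, leadingCoeff_C, (W_monic z).leadingCoeff, (W_monic p).leadingCoeff,
      mul_one, norm_one, Real.log_one, sub_zero]
    exact hl

/-- The free critical values form a finite set. -/
lemma freeVals_finite {P Q : ℂ[X]} {M κ B : ℝ} {N : ℕ} (h : Cfg M κ B N P Q) (hN : 0 < N)
    (hκ : 0 < κ) : (freeVals P Q).Finite ∧ (freeVals P Q).ncard ≤ 2 * N := by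
  have h1 : freeVals P Q ⊆ (vals P Q : Set ℂ) := fun v hv =>
    free_mem_vals (h.neP hN) (h.neQ hN) (h.tot_ne hN hκ).1 hv
  refine ⟨(Finset.finite_toSet _).subset h1, ?_⟩
  refine (Set.ncard_le_ncard h1 (Finset.finite_toSet _)).trans ?_
  rw [Set.ncard_coe_finset]
  exact vals_card (by omega) (Sp_card h)

lemma freeVals_tr (P Q : ℂ[X]) (t : ℂ) : freeVals (tr P t) (tr Q t) = freeVals P Q := by
  ext v
  constructor
  · rintro ⟨c, h1, h2, h3, h4⟩
    rw [tr_eval] at h1 h2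
    rw [tr_eval, tr_eval] at h4
    refine ⟨c + t, h1, h2, ?_, h4⟩
    have := tr_wro P Q t c
    unfold wro at this
    rw [← this]
    exact h3
  · rintro ⟨c, h1, h2, h3, h4⟩
    refine ⟨c - t, ?_, ?_, ?_, ?_⟩
    · rw [tr_eval, sub_add_cancel]; exact h1
    · rw [tr_eval, sub_add_cancel]; exact h2
    · have := tr_wro P Q t (c - t)
      unfold wro at this
      rw [this, sub_add_cancel]
      exact h3
    · rw [tr_eval, tr_eval, sub_add_cancel]; exact h4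

lemma W_tr {n : ℕ} (z : Fin n → ℂ) (t : ℂ) : tr (W z) (-t) = W (fun i => z i + t) := by
  unfold tr W
  rw [prod_comp]
  refine Finset.prod_congr rfl (fun i _ => ?_)
  simp only [sub_comp, X_comp, C_comp, map_neg, map_add]
  ring

lemma CW_tr {n : ℕ} (a : ℂ) (z : Fin n → ℂ) (t : ℂ) :
    tr (C a * W z) (-t) = C a * W (fun i => z i + t) := by
  rw [← W_tr]
  unfold tr
  rw [mul_comp, C_comp]

/-- A translation which moves all the given points away from the origin. -/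
lemma exists_shift {ι : Type*} [Fintype ι] (c : ι → ℂ) {N : ℕ} (hN : 12 ≤ N)
    (hι : Fintype.card ι ≤ 2 * N) {δ : ℝ} (hδ : 1 / (2 * (N : ℝ)) ≤ δ) :
    ∃ t : ℂ, ‖t‖ ≤ δ ∧ ∀ i, 1 / (N : ℝ) ^ 5 ≤ ‖c i + t‖ := by
  classical
  by_contra hcon
  push Not at hcon
  have h12 : (12 : ℝ) ≤ N := by exact_mod_cast hN
  have hN0 : (0 : ℝ) < N := by linarith
  have hδ0 : 0 < δ := lt_of_lt_of_le (by positivity) hδ
  have hsub : closedBall (0 : ℂ) δ ⊆ ⋃ i ∈ (Finset.univ : Finset ι),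
      closedBall (-(c i)) (1 / (N : ℝ) ^ 5) := by
    intro t ht
    rw [mem_closedBall, dist_zero_right] at ht
    obtain ⟨i, hi⟩ := hcon t ht
    refine mem_iUnion₂.2 ⟨i, Finset.mem_univ i, ?_⟩
    rw [mem_closedBall, dist_eq_norm, sub_neg_eq_add, add_comm]
    exact hi.le
  have h1 := (measure_mono hsub).trans (measure_biUnion_finset_le (μ := volume) _ _)
  rw [Pool.Agent.U818.FC.volume_closedBall_eq 0 hδ0.le,
    Finset.sum_congr rfl (fun i _ => Pool.Agent.U818.FC.volume_closedBall_eq (-(c i))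
      (by positivity : (0 : ℝ) ≤ 1 / (N : ℝ) ^ 5)), Finset.sum_const, nsmul_eq_mul,
    ← ENNReal.ofReal_natCast, ← ENNReal.ofReal_mul (by positivity),
    ENNReal.ofReal_le_ofReal_iff (by positivity), Finset.card_univ] at h1
  have h2 : (Fintype.card ι : ℝ) ≤ 2 * N := by exact_mod_cast hι
  have h3 : (Fintype.card ι : ℝ) * (Real.pi * (1 / (N : ℝ) ^ 5) ^ 2) ≤
      2 * N * (Real.pi * (1 / (N : ℝ) ^ 5) ^ 2) :=
    mul_le_mul_of_nonneg_right h2 (by positivity)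
  have h4 : (1 / (2 * (N : ℝ))) ^ 2 ≤ δ ^ 2 := pow_le_pow_left₀ (by positivity) hδ 2
  have hpi := Real.pi_pos
  have h5 : 2 * N * (Real.pi * (1 / (N : ℝ) ^ 5) ^ 2) = Real.pi * (2 / (N : ℝ) ^ 9) := by
    field_simp
  rw [h5] at h3
  have h6 : 2 / (N : ℝ) ^ 9 < (1 / (2 * (N : ℝ))) ^ 2 := by
    rw [div_pow, one_pow, mul_pow, div_lt_div_iff₀ (by positivity) (by positivity)]
    have h7 : (8 : ℝ) < (N : ℝ) ^ 7 := by
      calc (8 : ℝ) < 12 ^ 7 := by norm_num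
        _ ≤ _ := pow_le_pow_left₀ (by norm_num) h12 7
    calc 2 * ((2 : ℝ) ^ 2 * (N : ℝ) ^ 2) = 8 * (N : ℝ) ^ 2 := by ring
      _ < (N : ℝ) ^ 7 * (N : ℝ) ^ 2 := mul_lt_mul_of_pos_right h7 (by positivity)
      _ = 1 * (N : ℝ) ^ 9 := by ring
  have h7 : Real.pi * δ ^ 2 ≤ Real.pi * (2 / (N : ℝ) ^ 9) := h1.trans h3
  have h8 : δ ^ 2 ≤ 2 / (N : ℝ) ^ 9 := le_of_mul_le_mul_left h7 hpi
  linarith

/-- The logarithmic area of the non-hyperbolic multiples, with the number of the critical values. -/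
theorem mult_area' {M κ B : ℝ} (hM1 : 1 ≤ M) (hκ : 0 < κ) :
    ∃ n₀ : ℕ, ∀ N : ℕ, n₀ ≤ N → ∀ P Q : ℂ[X], Cfg M κ B N P Q →
      (∀ c : ℂ, P.eval c = 0 ∨ Q.eval c = 0 → 1 / (N : ℝ) ^ 5 ≤ ‖c‖) → ∀ k : ℕ, 1 ≤ k →
      (freeVals P Q).ncard ≤ k →
      nu {a : ℂ | a ≠ 0 ∧ |Real.log ‖a‖| ≤ N ∧ ¬ Hyp (C a * P) Q} ≤
        ENNReal.ofReal (2 * Real.pi * (73 * (Real.sqrt k * Real.log N))) := by
  set ρ := rh M κ (B + 1) with hρd
  have hρ := rh_ge (B := B + 1) hM1 hκ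
  have hlogρ := rh_log (B := B + 1) hM1 hκ
  rw [← hρd] at hρ hlogρ
  obtain ⟨n₀, hn₀⟩ := eventually_atTop.1 (big_ev M ρ)
  refine ⟨n₀, fun N hN P Q h h0 k hk1 hk => ?_⟩
  have hb := hn₀ N hN
  have hN0 : 0 < N := by have := hb.twelve; omega
  obtain ⟨hfin, -⟩ := freeVals_finite h hN0 hκ
  refine mult_area h hb hM1 hρ hκ hlogρ (fun c hc => h0 c
    ((mem_Sp (h.neP hN0) (h.neQ hN0)).1 hc)) hk1 hfin.toFinset ?_ ?_ ?_
  · intro v hv
    exact (Set.Finite.mem_toFinset _).2 hv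
  · intro v hv
    obtain ⟨c, h1, h2, -, rfl⟩ := (Set.Finite.mem_toFinset _).1 hv
    exact div_ne_zero h1 h2
  · rw [← Set.ncard_eq_toFinset_card _ hfin]
    exact hk

end Pool.Agent.U818.RZ
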