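import Pool.Agent.U818.RZ.Zone

/-!
# The logarithm of the modulus of a rational function as a potential
-/

set_option autoImplicit false

open Polynomial MeasureTheory Set Filter Topology Metric

namespace Pool.Agent.U818.RZ

open Pool.Agent.U818.FC (norm_eval')

/-- The zeros and the poles of `P / Q`. -/
noncomputable def Sp (P Q : ℂ[X]) : Finset ℂ := P.roots.toFinset ∪ Q.roots.toFinset

/-- The multiplicities, negative for the poles. -/
noncomputable def mu (P Q : ℂ[X]) (c : ℂ) : ℝ := (P.roots.count c : ℝ) - Q.roots.count c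

/-- The constant. -/
noncomputable def sc (P Q : ℂ[X]) : ℝ :=
  Real.log ‖P.leadingCoeff‖ - Real.log ‖Q.leadingCoeff‖

/-- The potential `log ‖P / Q‖`. -/
noncomputable def U (P Q : ℂ[X]) (z : ℂ) : ℝ := pot (Sp P Q) (mu P Q) (sc P Q) z

lemma mem_Sp {P Q : ℂ[X]} (hP : P ≠ 0) (hQ : Q ≠ 0) {c : ℂ} :
    c ∈ Sp P Q ↔ P.eval c = 0 ∨ Q.eval c = 0 := by
  rw [Sp, Finset.mem_union, Multiset.mem_toFinset, Multiset.mem_toFinset, mem_roots hP,
    mem_roots hQ, IsRoot.def, IsRoot.def]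

lemma sum_count' (p : ℂ[X]) (T : Finset ℂ) (hT : ∀ c ∈ p.roots, c ∈ T) :
    ∑ c ∈ T, p.roots.count c = p.natDegree := by
  rw [Multiset.sum_count_eq_card hT]
  exact splits_iff_card_roots.1 (IsAlgClosed.splits p)

lemma sum_countR (p : ℂ[X]) (T : Finset ℂ) (hT : ∀ c ∈ p.roots, c ∈ T) :
    ∑ c ∈ T, (p.roots.count c : ℝ) = p.natDegree := by
  rw [← sum_count' p T hT]
  push_cast
  rfl

lemma sub_left (P Q : ℂ[X]) : ∀ c ∈ P.roots, c ∈ Sp P Q := fun _ hc =>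
  Finset.mem_union_left _ (Multiset.mem_toFinset.2 hc)

lemma sub_right (P Q : ℂ[X]) : ∀ c ∈ Q.roots, c ∈ Sp P Q := fun _ hc =>
  Finset.mem_union_right _ (Multiset.mem_toFinset.2 hc)

lemma tot_eq (P Q : ℂ[X]) : tot (Sp P Q) (mu P Q) = (P.natDegree : ℝ) - Q.natDegree := by
  unfold tot mu
  rw [Finset.sum_sub_distrib, sum_countR P _ (sub_left P Q), sum_countR Q _ (sub_right P Q)]

lemma sum_abs_le (P Q : ℂ[X]) : ∑ c ∈ Sp P Q, |mu P Q c| ≤ (P.natDegree : ℝ) + Q.natDegree := by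
  rw [← sum_countR P _ (sub_left P Q), ← sum_countR Q _ (sub_right P Q),
    ← Finset.sum_add_distrib]
  refine Finset.sum_le_sum (fun c _ => ?_)
  unfold mu
  refine (abs_sub _ _).trans (le_of_eq ?_)
  rw [abs_of_nonneg (Nat.cast_nonneg _), abs_of_nonneg (Nat.cast_nonneg _)]

lemma log_eval (p : ℂ[X]) (hp : p ≠ 0) (T : Finset ℂ) (hT : ∀ c ∈ p.roots, c ∈ T) {z : ℂ}
    (hz : z ∉ T) : Real.log ‖p.eval z‖ = Real.log ‖p.leadingCoeff‖ +
      ∑ c ∈ T, (p.roots.count c : ℝ) * Real.log ‖z - c‖ := by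
  have hne : ∀ c ∈ T, ‖z - c‖ ≠ 0 := fun c hc => by
    rw [norm_ne_zero_iff, sub_ne_zero]
    rintro rfl
    exact hz hc
  have h1 : (p.roots.map (fun c => ‖z - c‖)).prod = ∏ c ∈ T, ‖z - c‖ ^ p.roots.count c := by
    rw [Finset.prod_multiset_map_count]
    apply Finset.prod_subset
    · intro c hc
      exact hT c (Multiset.mem_toFinset.1 hc)
    · intro c _ hc
      rw [Multiset.mem_toFinset] at hc
      rw [Multiset.count_eq_zero_of_notMem hc, pow_zero]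
  have h2 : ∏ c ∈ T, ‖z - c‖ ^ p.roots.count c ≠ 0 :=
    Finset.prod_ne_zero_iff.2 (fun c hc => pow_ne_zero _ (hne c hc))
  rw [norm_eval', h1, Real.log_mul (norm_ne_zero_iff.2 (leadingCoeff_ne_zero.2 hp)) h2,
    Real.log_prod (fun c hc => pow_ne_zero _ (hne c hc))]
  congr 1
  refine Finset.sum_congr rfl (fun c _ => ?_)
  rw [Real.log_pow]

lemma U_eq {P Q : ℂ[X]} (hP : P ≠ 0) (hQ : Q ≠ 0) {z : ℂ} (hz : z ∉ Sp P Q) :
    U P Q z = Real.log ‖P.eval z‖ - Real.log ‖Q.eval z‖ := by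
  rw [log_eval P hP _ (sub_left P Q) hz, log_eval Q hQ _ (sub_right P Q) hz, U, pot, sc]
  have : ∑ c ∈ Sp P Q, mu P Q c * Real.log ‖z - c‖ =
      ∑ c ∈ Sp P Q, (P.roots.count c : ℝ) * Real.log ‖z - c‖ -
      ∑ c ∈ Sp P Q, (Q.roots.count c : ℝ) * Real.log ‖z - c‖ := by
    rw [← Finset.sum_sub_distrib]
    refine Finset.sum_congr rfl (fun c _ => ?_)
    unfold mu
    ring
  rw [this]
  ring

lemma small_of_U {P Q : ℂ[X]} (hP : P ≠ 0) (hQ : Q ≠ 0) {z : ℂ} (hz : z ∉ Sp P Q) {y : ℝ}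
    (h : U P Q z ≤ -y) : ‖P.eval z‖ ≤ Real.exp (-y) * ‖Q.eval z‖ := by
  rw [U_eq hP hQ hz] at h
  have h' := (mem_Sp hP hQ).not.1 hz
  rw [not_or] at h'
  have h1 : 0 < ‖P.eval z‖ := norm_pos_iff.2 h'.1
  have h2 : 0 < ‖Q.eval z‖ := norm_pos_iff.2 h'.2
  rw [← Real.log_le_log_iff h1 (by positivity), Real.log_mul (Real.exp_pos _).ne' h2.ne',
    Real.log_exp]
  linarith

lemma large_of_U {P Q : ℂ[X]} (hP : P ≠ 0) (hQ : Q ≠ 0) {z : ℂ} (hz : z ∉ Sp P Q) {y : ℝ}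
    (h : y ≤ U P Q z) : ‖Q.eval z‖ ≤ Real.exp (-y) * ‖P.eval z‖ := by
  rw [U_eq hP hQ hz] at h
  have h' := (mem_Sp hP hQ).not.1 hz
  rw [not_or] at h'
  have h1 : 0 < ‖P.eval z‖ := norm_pos_iff.2 h'.1
  have h2 : 0 < ‖Q.eval z‖ := norm_pos_iff.2 h'.2
  rw [← Real.log_le_log_iff h2 (by positivity), Real.log_mul (Real.exp_pos _).ne' h1.ne',
    Real.log_exp]
  linarith

lemma log_ratio {a b η : ℝ} (ha : 0 < a) (h : |b - a| ≤ η * a) (hη : η ≤ 1 / 2) :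
    |Real.log b - Real.log a| ≤ 2 * η := by
  have hη0 : 0 ≤ η := by
    by_contra h0
    push Not at h0
    have := (abs_nonneg (b - a)).trans h
    nlinarith
  have h1 := abs_le.1 h
  have hb : 0 < b := by nlinarith [h1.1]
  have hr : 0 < b / a := div_pos hb ha
  rw [← Real.log_div hb.ne' ha.ne']
  have h2 : b / a ≤ 1 + η := by
    rw [div_le_iff₀ ha]
    linarith [h1.2]
  have h3 : 1 - η ≤ b / a := by
    rw [le_div_iff₀ ha]
    linarith [h1.1]
  have h4 := Real.log_le_sub_one_of_pos hr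
  have h5 := Real.one_sub_inv_le_log_of_pos hr
  have h6 : (b / a)⁻¹ ≤ 1 + 2 * η := by
    rw [inv_le_comm₀ hr (by linarith)]
    refine le_trans ?_ h3
    rw [inv_le_iff_one_le_mul₀ (by linarith)]
    nlinarith
  rw [abs_le]
  constructor <;> linarith

lemma pot_diff {S : Finset ℂ} {m : ℂ → ℝ} {s : ℝ} {z z' : ℂ} {η : ℝ}
    (h : ∀ c ∈ S, |Real.log ‖z' - c‖ - Real.log ‖z - c‖| ≤ η) :
    |pot S m s z' - pot S m s z| ≤ η * ∑ c ∈ S, |m c| := by
  have h1 : pot S m s z' - pot S m s z =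
      ∑ c ∈ S, m c * (Real.log ‖z' - c‖ - Real.log ‖z - c‖) := by
    unfold pot
    rw [add_sub_add_left_eq_sub, ← Finset.sum_sub_distrib]
    refine Finset.sum_congr rfl (fun c _ => ?_)
    ring
  rw [h1, Finset.mul_sum]
  refine (Finset.abs_sum_le_sum_abs _ _).trans (Finset.sum_le_sum (fun c hc => ?_))
  rw [abs_mul, mul_comm]
  exact mul_le_mul_of_nonneg_right (h c hc) (abs_nonneg _)

lemma pot_far {S : Finset ℂ} {m : ℂ → ℝ} {s M : ℝ} {z : ℂ} (hM : ∀ c ∈ S, ‖c‖ ≤ M)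
    (hz : 2 * M ≤ ‖z‖) (hz0 : 0 < ‖z‖) :
    |pot S m s z - (s + tot S m * Real.log ‖z‖)| ≤ ∑ c ∈ S, |m c| := by
  have h1 : pot S m s z - (s + tot S m * Real.log ‖z‖) =
      ∑ c ∈ S, m c * (Real.log ‖z - c‖ - Real.log ‖z‖) := by
    unfold pot tot
    rw [add_sub_add_left_eq_sub, Finset.sum_mul, ← Finset.sum_sub_distrib]
    refine Finset.sum_congr rfl (fun c _ => ?_)
    ring
  rw [h1]
  refine (Finset.abs_sum_le_sum_abs _ _).trans (Finset.sum_le_sum (fun c hc => ?_))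
  rw [abs_mul]
  have h2 : |Real.log ‖z - c‖ - Real.log ‖z‖| ≤ 2 * (1 / 2) := by
    apply log_ratio hz0 _ le_rfl
    calc |‖z - c‖ - ‖z‖| ≤ ‖z - c - z‖ := abs_norm_sub_norm_le _ _
      _ = ‖c‖ := by rw [sub_sub_cancel_left, norm_neg]
      _ ≤ M := hM c hc
      _ ≤ 1 / 2 * ‖z‖ := by linarith
  calc |m c| * |Real.log ‖z - c‖ - Real.log ‖z‖| ≤ |m c| * 1 :=
        mul_le_mul_of_nonneg_left (by linarith) (abs_nonneg _)
    _ = _ := mul_one _

/-- The hypotheses on the rational map `P / Q`, of degree `N`. -/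
structure Cfg (M κ B : ℝ) (N : ℕ) (P Q : ℂ[X]) : Prop where
  cop : IsCoprime P Q
  deg : max P.natDegree Q.natDegree = N
  rt : ∀ c : ℂ, (P * Q).eval c = 0 → ‖c‖ ≤ M
  dif : κ * N ≤ |(P.natDegree : ℝ) - Q.natDegree|
  lc : |Real.log ‖P.leadingCoeff‖ - Real.log ‖Q.leadingCoeff‖| ≤ B * N

section

variable {M κ B : ℝ} {N : ℕ} {P Q : ℂ[X]}

lemma Cfg.neP (h : Cfg M κ B N P Q) (hN : 0 < N) : P ≠ 0 := by
  rintro rfl
  have h1 : IsUnit Q := by
    have := h.cop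
    rwa [isCoprime_zero_left] at this
  have h2 := natDegree_eq_zero_of_isUnit h1
  have h3 := h.deg
  rw [natDegree_zero, h2] at h3
  simp at h3
  omega

lemma Cfg.neQ (h : Cfg M κ B N P Q) (hN : 0 < N) : Q ≠ 0 := by
  rintro rfl
  have h1 : IsUnit P := by
    have := h.cop
    rwa [isCoprime_zero_right] at this
  have h2 := natDegree_eq_zero_of_isUnit h1
  have h3 := h.deg
  rw [natDegree_zero, h2] at h3
  simp at h3
  omega

lemma Cfg.bd (h : Cfg M κ B N P Q) (hN : 0 < N) : ∀ c ∈ Sp P Q, ‖c‖ ≤ M := by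
  intro c hc
  apply h.rt
  rw [eval_mul]
  rcases (mem_Sp (h.neP hN) (h.neQ hN)).1 hc with h1 | h1
  · rw [h1, zero_mul]
  · rw [h1, mul_zero]

lemma Cfg.sum_le (h : Cfg M κ B N P Q) : ∑ c ∈ Sp P Q, |mu P Q c| ≤ 2 * N := by
  refine (sum_abs_le P Q).trans ?_
  have h1 : (P.natDegree : ℝ) ≤ N := by
    rw [← h.deg]; exact_mod_cast le_max_left _ _
  have h2 : (Q.natDegree : ℝ) ≤ N := by
    rw [← h.deg]; exact_mod_cast le_max_right _ _
  linarith

/-- Far from the zeros and poles. -/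
lemma Cfg.far (h : Cfg M κ B N P Q) (hN : 0 < N) {ρ : ℝ} (hρ : 2 * M ≤ ρ) (hρ1 : 1 ≤ ρ)
    (hκ : 0 < κ) (hlog : B + 3 ≤ κ * Real.log ρ) {z : ℂ} (hz : ρ ≤ ‖z‖) :
    ((Q.natDegree : ℝ) < P.natDegree → (N : ℝ) ≤ U P Q z) ∧
      ((P.natDegree : ℝ) < Q.natDegree → U P Q z ≤ -N) := by
  have hN0 : (0 : ℝ) < N := by exact_mod_cast hN
  have hz0 : 0 < ‖z‖ := by linarith
  have h1 := pot_far (m := mu P Q) (s := sc P Q) (h.bd hN) (hρ.trans hz) hz0
  have h2 := abs_le.1 (h1.trans h.sum_le)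
  rw [tot_eq] at h2
  have h3 : Real.log ρ ≤ Real.log ‖z‖ := Real.log_le_log (by linarith) hz
  have h4 := abs_le.1 h.lc
  have h0 : 0 ≤ Real.log ρ := Real.log_nonneg hρ1
  have h5 := h.dif
  change -(2 * (N : ℝ)) ≤ U P Q z - _ ∧ U P Q z - _ ≤ 2 * (N : ℝ) at h2
  unfold sc at h2
  have key : (B + 3) * N ≤ |(P.natDegree : ℝ) - Q.natDegree| * Real.log ‖z‖ := by
    calc (B + 3) * N ≤ κ * Real.log ρ * N := mul_le_mul_of_nonneg_right hlog hN0.le
      _ = κ * N * Real.log ρ := by ring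
      _ ≤ |(P.natDegree : ℝ) - Q.natDegree| * Real.log ρ := mul_le_mul_of_nonneg_right h5 h0
      _ ≤ _ := mul_le_mul_of_nonneg_left h3 (abs_nonneg _)
  constructor
  · intro hd
    rw [abs_of_pos (by linarith)] at key
    linarith [h2.1, h4.1]
  · intro hd
    rw [abs_of_neg (by linarith)] at key
    linarith [h2.2, h4.2]

/-- Near a point which is not too close to the zeros and poles. -/
lemma Cfg.near (h : Cfg M κ B N P Q) (hN : 0 < N) {t w : ℂ} {s δ : ℝ} (hδ : 0 < δ)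
    (ht : ∀ c ∈ Sp P Q, δ ≤ ‖t - c‖) (hs : 2 * s ≤ δ) (hsN : 4 * N * s ≤ δ) (hw : ‖w‖ ≤ s) :
    |U P Q (w + t) - U P Q t| ≤ 1 ∧ w + t ∉ Sp P Q := by
  have hs0 : 0 ≤ s := (norm_nonneg _).trans hw
  have hN0 : (0 : ℝ) < N := by exact_mod_cast hN
  constructor
  · have h1 : ∀ c ∈ Sp P Q, |Real.log ‖w + t - c‖ - Real.log ‖t - c‖| ≤ 2 * (s / δ) := by
      intro c hc
      have h0 : 0 < ‖t - c‖ := hδ.trans_le (ht c hc)
      apply log_ratio h0
      · calc |‖w + t - c‖ - ‖t - c‖| ≤ ‖w + t - c - (t - c)‖ := abs_norm_sub_norm_le _ _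
          _ = ‖w‖ := by congr 1; ring
          _ ≤ s := hw
          _ = s / δ * δ := by field_simp
          _ ≤ _ := mul_le_mul_of_nonneg_left (ht c hc) (by positivity)
      · rw [div_le_iff₀ hδ]
        linarith
    refine (pot_diff h1).trans ?_
    calc 2 * (s / δ) * ∑ c ∈ Sp P Q, |mu P Q c| ≤ 2 * (s / δ) * (2 * N) :=
          mul_le_mul_of_nonneg_left h.sum_le (by positivity)
      _ = 4 * N * s / δ := by ring
      _ ≤ 1 := by rw [div_le_one hδ]; exact hsN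
  · intro hc
    have h1 := ht _ hc
    have h2 : ‖t - (w + t)‖ = ‖w‖ := by
      rw [← norm_neg]
      congr 1
      ring
    rw [h2] at h1
    linarith

end

end Pool.Agent.U818.RZ
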