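import Pool.Agent.U818.RZ.Pot
import Pool.Agent.U818.RZ.Dyn

/-!
# The family `R (z + t)`: reduction of hyperbolicity to the window
-/

set_option autoImplicit false

open Polynomial MeasureTheory Set Filter Topology Metric

namespace Pool.Agent.U818.RZ

open Pool.Agent.H762R2.Rt Pool.Agent.Helper114.Herman Pool.Agent.Helper114.Konig

/-- Translation of the variable. -/
noncomputable def tr (p : ℂ[X]) (t : ℂ) : ℂ[X] := p.comp (X + C t)

lemma tr_eval (p : ℂ[X]) (t w : ℂ) : (tr p t).eval w = p.eval (w + t) := by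
  simp [tr, eval_comp]

lemma tr_natDegree (p : ℂ[X]) (t : ℂ) : (tr p t).natDegree = p.natDegree := by
  rw [tr, natDegree_comp, natDegree_X_add_C, mul_one]

lemma tr_coprime {P Q : ℂ[X]} (h : IsCoprime P Q) (t : ℂ) : IsCoprime (tr P t) (tr Q t) := by
  obtain ⟨a, b, hab⟩ := h
  refine ⟨tr a t, tr b t, ?_⟩
  unfold tr
  rw [← mul_comp, ← mul_comp, ← add_comp, hab, one_comp]

lemma tr_wro (P Q : ℂ[X]) (t w : ℂ) :
    (wro (tr P t) (tr Q t)).eval w = (wro P Q).eval (w + t) := by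
  have h : ∀ p : ℂ[X], (derivative (tr p t)).eval w = (derivative p).eval (w + t) := by
    intro p
    rw [tr, derivative_comp]
    simp [eval_comp]
  rw [wro, wro, eval_sub, eval_mul, eval_mul, eval_sub, eval_mul, eval_mul, h, h, tr_eval, tr_eval]

lemma hom_zero' (p : ℂ[X]) (d : ℕ) : hom p d 1 0 = p.coeff d := by
  unfold hom
  rw [Finset.sum_eq_single d]
  · simp
  · intro b hb hbd
    have h1 : b < d := lt_of_le_of_ne (Nat.lt_succ_iff.1 (Finset.mem_range.1 hb)) hbd
    rw [zero_pow (by omega), mul_zero]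
  · intro h
    exact absurd (Finset.mem_range.2 (Nat.lt_succ_self d)) h

/-- `N` is large. -/
structure Big (M ρ : ℝ) (N : ℕ) : Prop where
  twelve : 12 ≤ N
  rho : 12 * (ρ + M) ≤ N
  ex : 4 * (N : ℝ) ^ 8 ≤ Real.exp N

/-- The window: `N ^ (-8) ≤ |P / Q| ≤ N ^ 8`. -/
def Win (P Q : ℂ[X]) (N : ℕ) (z : ℂ) : Prop :=
  ‖Q.eval z‖ ≤ (N : ℝ) ^ 8 * ‖P.eval z‖ ∧ ‖P.eval z‖ ≤ (N : ℝ) ^ 8 * ‖Q.eval z‖

/-- The values of `P / Q` at the critical points which are neither zeros nor poles. -/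
def Free (P Q : ℂ[X]) (v : ℂ) : Prop :=
  ∃ c : ℂ, P.eval c ≠ 0 ∧ Q.eval c ≠ 0 ∧ (derivative P * Q - P * derivative Q).eval c = 0 ∧
    v = P.eval c / Q.eval c

section

variable {M κ B ρ : ℝ} {N : ℕ} {P Q : ℂ[X]}

lemma exp_small (hb : Big M ρ N) (hρ : 0 < ρ + M) :
    Real.exp (-(8 * Real.log N - 1)) < 1 / (N : ℝ) ^ 7 / 4 ∧
      Real.exp (-(8 * Real.log N - 1)) < 1 / (ρ + M) / 4 := by
  have h12 : (12 : ℝ) ≤ N := by exact_mod_cast hb.twelve
  have hN0 : (0 : ℝ) < N := by linarith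
  have e1 : Real.exp (-(8 * Real.log N - 1)) = Real.exp 1 / (N : ℝ) ^ 8 := by
    rw [neg_sub, Real.exp_sub]
    congr 1
    rw [← Real.exp_log (pow_pos hN0 8), Real.log_pow]
    push_cast
    rfl
  have he := Real.exp_one_lt_d9
  have e2 : Real.exp 1 / (N : ℝ) ^ 8 < 1 / (N : ℝ) ^ 7 / 4 := by
    rw [div_div, div_lt_div_iff₀ (by positivity) (by positivity)]
    have h7 : (0 : ℝ) < (N : ℝ) ^ 7 := by positivity
    calc Real.exp 1 * ((N : ℝ) ^ 7 * 4) < 3 * ((N : ℝ) ^ 7 * 4) :=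
          mul_lt_mul_of_pos_right (by linarith) (by positivity)
      _ = 12 * (N : ℝ) ^ 7 := by ring
      _ ≤ N * (N : ℝ) ^ 7 := mul_le_mul_of_nonneg_right h12 h7.le
      _ = 1 * (N : ℝ) ^ 8 := by ring
  refine ⟨e1 ▸ e2, ?_⟩
  rw [e1]
  rw [div_div, div_lt_div_iff₀ (by positivity) (by positivity)]
  have h1 : (N : ℝ) ≤ (N : ℝ) ^ 8 := by
    calc (N : ℝ) = (N : ℝ) ^ 1 := (pow_one _).symm
      _ ≤ _ := pow_le_pow_right₀ (by linarith) (by norm_num)
  calc Real.exp 1 * ((ρ + M) * 4) < 3 * ((ρ + M) * 4) :=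
        mul_lt_mul_of_pos_right (by linarith) (by positivity)
    _ = 12 * (ρ + M) := by ring
    _ ≤ N := hb.rho
    _ ≤ 1 * (N : ℝ) ^ 8 := by rw [one_mul]; exact h1

lemma exp_far (hb : Big M ρ N) (hρ : 0 < ρ + M) :
    Real.exp (-(N : ℝ)) < 1 / (N : ℝ) ^ 7 / 4 ∧ Real.exp (-(N : ℝ)) < 1 / (ρ + M) / 4 := by
  have h12 : (12 : ℝ) ≤ N := by exact_mod_cast hb.twelve
  have hN0 : (0 : ℝ) < N := by linarith
  have e1 : Real.exp (-(N : ℝ)) ≤ 1 / (4 * (N : ℝ) ^ 8) := by
    rw [Real.exp_neg, inv_eq_one_div]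
    exact one_div_le_one_div_of_le (by positivity) hb.ex
  have h1 : (N : ℝ) ^ 7 < (N : ℝ) ^ 8 := pow_lt_pow_right₀ (by linarith) (by norm_num)
  have h2 : (N : ℝ) ≤ (N : ℝ) ^ 8 := by
    calc (N : ℝ) = (N : ℝ) ^ 1 := (pow_one _).symm
      _ ≤ _ := pow_le_pow_right₀ (by linarith) (by norm_num)
  constructor
  · refine e1.trans_lt ?_
    rw [div_div]
    apply one_div_lt_one_div_of_lt (by positivity)
    linarith
  · refine e1.trans_lt ?_
    rw [div_div]
    apply one_div_lt_one_div_of_lt (by positivity)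
    have := hb.rho
    nlinarith

/-- Hyperbolicity outside the window. -/
theorem good_hyp (h : Cfg M κ B N P Q) (hb : Big M ρ N) (hM1 : 1 ≤ M) (hρ : 2 * M ≤ ρ)
    (hκ : 0 < κ) (hlog : B + 3 ≤ κ * Real.log ρ) {t : ℂ} (ht : ‖t‖ ≤ M)
    (ht1 : ∀ c ∈ Sp P Q, 1 / (N : ℝ) ^ 5 ≤ ‖t - c‖) (ht2 : ¬ Win P Q N t)
    (ht3 : ∀ v, Free P Q v → ‖v + t‖ ≤ ρ → ¬ Win P Q N (v + t)) :
    Hyp (tr P t) (tr Q t) := by
  have h12 : (12 : ℝ) ≤ N := by exact_mod_cast hb.twelve
  have hN0 : (0 : ℝ) < N := by linarith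
  have hN : 0 < N := by have := hb.twelve; omega
  have hP := h.neP hN
  have hQ := h.neQ hN
  have hρM : 0 < ρ + M := by linarith
  have hρ1 : 1 ≤ ρ := by linarith
  obtain ⟨s1, s2⟩ := exp_small hb hρM
  obtain ⟨f1, f2⟩ := exp_far hb hρM
  have hspos : (0 : ℝ) < 1 / (N : ℝ) ^ 7 := by positivity
  have hTpos : (0 : ℝ) < 1 / (ρ + M) := by positivity
  have hlogN : 0 ≤ Real.log N := Real.log_natCast_nonneg _
  -- the value at a point outside of the window
  have hwin : ∀ z, z ∉ Sp P Q → ¬ Win P Q N z →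
      U P Q z ≤ -(8 * Real.log N) ∨ 8 * Real.log N ≤ U P Q z := by
    intro z hz hw
    have h' := (mem_Sp hP hQ).not.1 hz
    rw [not_or] at h'
    have h1 : 0 < ‖P.eval z‖ := norm_pos_iff.2 h'.1
    have h2 : 0 < ‖Q.eval z‖ := norm_pos_iff.2 h'.2
    have h8 : Real.log ((N : ℝ) ^ 8) = 8 * Real.log N := by
      rw [Real.log_pow]; push_cast; rfl
    rw [Win, not_and_or, not_le, not_le] at hw
    rw [U_eq hP hQ hz]
    rcases hw with hw | hw
    · left
      have := Real.log_lt_log (by positivity) hw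
      rw [Real.log_mul (by positivity) h1.ne', h8] at this
      linarith
    · right
      have := Real.log_lt_log (by positivity) hw
      rw [Real.log_mul (by positivity) h2.ne', h8] at this
      linarith
  have hts : t ∉ Sp P Q := by
    intro hc
    have := ht1 t hc
    rw [sub_self, norm_zero] at this
    have h5 : (0 : ℝ) < 1 / (N : ℝ) ^ 5 := by positivity
    linarith
  have hfarS : ∀ z : ℂ, ρ ≤ ‖z‖ → z ∉ Sp P Q := by
    intro z hz hc
    have := h.bd hN z hc
    linarith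
  have hδ : (0 : ℝ) < 1 / (N : ℝ) ^ 5 := by positivity
  have hs2 : 2 * (1 / (N : ℝ) ^ 7) ≤ 1 / (N : ℝ) ^ 5 := by
    rw [mul_one_div, div_le_div_iff₀ (by positivity) (by positivity)]
    have : (N : ℝ) ^ 7 = (N : ℝ) ^ 2 * (N : ℝ) ^ 5 := by ring
    rw [this, one_mul]
    exact mul_le_mul_of_nonneg_right (by nlinarith) (by positivity)
  have hsN : 4 * N * (1 / (N : ℝ) ^ 7) ≤ 1 / (N : ℝ) ^ 5 := by
    rw [mul_one_div, div_le_div_iff₀ (by positivity) (by positivity)]
    have : (N : ℝ) ^ 7 = N * N * (N : ℝ) ^ 5 := by ring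
    rw [this]
    nlinarith [pow_pos hN0 5, mul_pos hN0 (pow_pos hN0 5)]
  have hdeg : N = max (tr P t).natDegree (tr Q t).natDegree := by
    rw [tr_natDegree, tr_natDegree, h.deg]
  have hQt : tr Q t ≠ 0 := by
    intro h0
    have h1 : (tr Q t).eval 0 = 0 := by rw [h0]; simp
    rw [tr_eval, zero_add] at h1
    exact hts ((mem_Sp hP hQ).2 (Or.inr h1))
  refine dyn (tr P t) (tr Q t) (tr_coprime h.cop t) hQt N hdeg hN (1 / (N : ℝ) ^ 7)
    (1 / (ρ + M)) hspos hTpos ?_ ?_ ?_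
  · rcases hwin t hts ht2 with h1 | h1
    · left
      intro w hw
      obtain ⟨n1, n2⟩ := h.near hN hδ ht1 hs2 hsN hw
      have n3 := abs_le.1 n1
      have n4 := small_of_U hP hQ n2 (y := 8 * Real.log N - 1) (by linarith [n3.2])
      have n5 : Q.eval (w + t) ≠ 0 := fun h0 => n2 ((mem_Sp hP hQ).2 (Or.inr h0))
      rw [tr_eval, tr_eval]
      exact ⟨n5, n4.trans_lt (mul_lt_mul_of_pos_right s1 (norm_pos_iff.2 n5))⟩
    · right
      intro w hw
      obtain ⟨n1, n2⟩ := h.near hN hδ ht1 hs2 hsN hw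
      have n3 := abs_le.1 n1
      have n4 := large_of_U hP hQ n2 (y := 8 * Real.log N - 1) (by linarith [n3.1])
      have n5 : P.eval (w + t) ≠ 0 := fun h0 => n2 ((mem_Sp hP hQ).2 (Or.inl h0))
      rw [tr_eval, tr_eval]
      exact ⟨n5, n4.trans_lt (mul_lt_mul_of_pos_right s2 (norm_pos_iff.2 n5))⟩
  · -- near infinity
    have hdP : (tr P t).natDegree ≤ N := by rw [hdeg]; exact le_max_left _ _
    have hdQ : (tr Q t).natDegree ≤ N := by rw [hdeg]; exact le_max_right _ _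
    have hz : ∀ x : ℂ, x ≠ 0 → ‖x‖ ≤ 1 / (ρ + M) → ρ ≤ ‖1 / x + t‖ := by
      intro x hx0 hx
      have h1 : 0 < ‖x‖ := norm_pos_iff.2 hx0
      have h2 : ρ + M ≤ ‖1 / x‖ := by
        rw [norm_div, norm_one, le_div_iff₀ h1]
        rw [le_div_iff₀ hρM] at hx
        linarith
      have h3 := norm_sub_le (1 / x + t) t
      rw [add_sub_cancel_right] at h3
      linarith
    have hdne : P.natDegree ≠ Q.natDegree := by
      intro h0
      have h1 := h.dif
      rw [h0, sub_self, abs_zero] at h1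
      have : 0 < κ * N := by positivity
      linarith
    rcases lt_or_gt_of_ne hdne with hd | hd
    · left
      intro x hx
      have hQN : Q.natDegree = N := by
        have := h.deg
        rw [max_eq_right hd.le] at this
        exact this
      by_cases hx0 : x = 0
      · rw [hx0, hom_zero', hom_zero']
        have h1 : (tr P t).coeff N = 0 :=
          coeff_eq_zero_of_natDegree_lt (by rw [tr_natDegree]; omega)
        have h2 : (tr Q t).coeff N ≠ 0 := by
          have : (tr Q t).natDegree = N := by rw [tr_natDegree, hQN]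
          rw [← this]
          exact leadingCoeff_ne_zero.2 hQt
        rw [h1, norm_zero]
        exact ⟨h2, mul_pos (by positivity) (norm_pos_iff.2 h2)⟩
      · rw [hom_ne hdP hx0, hom_ne hdQ hx0, tr_eval, tr_eval]
        have h1 := hz x hx0 hx
        have h2 := (h.far hN hρ hρ1 hκ hlog h1).2 (by exact_mod_cast hd)
        have h3 := small_of_U hP hQ (hfarS _ h1) h2
        have h4 : Q.eval (1 / x + t) ≠ 0 := fun h0 =>
          hfarS _ h1 ((mem_Sp hP hQ).2 (Or.inr h0))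
        have h5 : 0 < ‖x ^ N‖ := norm_pos_iff.2 (pow_ne_zero _ hx0)
        refine ⟨mul_ne_zero (pow_ne_zero _ hx0) h4, ?_⟩
        rw [norm_mul, norm_mul, mul_left_comm]
        exact mul_lt_mul_of_pos_left
          (h3.trans_lt (mul_lt_mul_of_pos_right f1 (norm_pos_iff.2 h4))) h5
    · right
      intro x hx
      have hPN : P.natDegree = N := by
        have := h.deg
        rw [max_eq_left hd.le] at this
        exact this
      have hPt : tr P t ≠ 0 := by
        intro h0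
        have h1 : (tr P t).eval 0 = 0 := by rw [h0]; simp
        rw [tr_eval, zero_add] at h1
        exact hts ((mem_Sp hP hQ).2 (Or.inl h1))
      by_cases hx0 : x = 0
      · rw [hx0, hom_zero', hom_zero']
        have h1 : (tr Q t).coeff N = 0 :=
          coeff_eq_zero_of_natDegree_lt (by rw [tr_natDegree]; omega)
        have h2 : (tr P t).coeff N ≠ 0 := by
          have : (tr P t).natDegree = N := by rw [tr_natDegree, hPN]
          rw [← this]
          exact leadingCoeff_ne_zero.2 hPt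
        rw [h1, norm_zero]
        exact ⟨h2, mul_pos (by positivity) (norm_pos_iff.2 h2)⟩
      · rw [hom_ne hdP hx0, hom_ne hdQ hx0, tr_eval, tr_eval]
        have h1 := hz x hx0 hx
        have h2 := (h.far hN hρ hρ1 hκ hlog h1).1 (by exact_mod_cast hd)
        have h3 := large_of_U hP hQ (hfarS _ h1) h2
        have h4 : P.eval (1 / x + t) ≠ 0 := fun h0 =>
          hfarS _ h1 ((mem_Sp hP hQ).2 (Or.inl h0))
        have h5 : 0 < ‖x ^ N‖ := norm_pos_iff.2 (pow_ne_zero _ hx0)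
        refine ⟨mul_ne_zero (pow_ne_zero _ hx0) h4, ?_⟩
        rw [norm_mul, norm_mul, mul_left_comm]
        exact mul_lt_mul_of_pos_left
          (h3.trans_lt (mul_lt_mul_of_pos_right f2 (norm_pos_iff.2 h4))) h5
  · -- the free critical values
    intro c hc1 hc2 hc3
    rw [tr_eval] at hc1 hc2
    rw [tr_wro] at hc3
    rw [tr_eval, tr_eval]
    set v := P.eval (c + t) / Q.eval (c + t) with hv
    rw [tr_eval, tr_eval]
    have hfree : Free P Q v := ⟨c + t, hc2, hc1, hc3, hv⟩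
    have hsm : ∀ {y : ℝ}, v + t ∉ Sp P Q → U P Q (v + t) ≤ -y →
        Real.exp (-y) ≤ 1 / (N : ℝ) ^ 7 / 2 →
        (Q.eval (v + t) ≠ 0 ∧
          ‖P.eval (v + t)‖ ≤ 1 / (N : ℝ) ^ 7 / 2 * ‖Q.eval (v + t)‖) := by
      intro y h1 h2 h3
      exact ⟨fun h0 => h1 ((mem_Sp hP hQ).2 (Or.inr h0)), (small_of_U hP hQ h1 h2).trans
        (mul_le_mul_of_nonneg_right h3 (norm_nonneg _))⟩
    have hlg : ∀ {y : ℝ}, v + t ∉ Sp P Q → y ≤ U P Q (v + t) →
        Real.exp (-y) ≤ 1 / (ρ + M) / 2 →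
        (P.eval (v + t) ≠ 0 ∧
          ‖Q.eval (v + t)‖ ≤ 1 / (ρ + M) / 2 * ‖P.eval (v + t)‖) := by
      intro y h1 h2 h3
      exact ⟨fun h0 => h1 ((mem_Sp hP hQ).2 (Or.inl h0)), (large_of_U hP hQ h1 h2).trans
        (mul_le_mul_of_nonneg_right h3 (norm_nonneg _))⟩
    have hexp8 : Real.exp (-(8 * Real.log N)) ≤ Real.exp (-(8 * Real.log N - 1)) := by
      rw [Real.exp_le_exp]; linarith
    by_cases hS : v + t ∈ Sp P Q
    · have hne : ¬ (P.eval (v + t) = 0 ∧ Q.eval (v + t) = 0) := by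
        rintro ⟨h1, h2⟩
        obtain ⟨a, b, hab⟩ := h.cop
        have := congrArg (eval (v + t)) hab
        rw [eval_add, eval_mul, eval_mul, h1, h2, eval_one] at this
        simp at this
      rcases (mem_Sp hP hQ).1 hS with h1 | h1
      · left
        refine ⟨fun h0 => hne ⟨h1, h0⟩, ?_⟩
        rw [h1, norm_zero]
        positivity
      · right
        refine ⟨fun h0 => hne ⟨h0, h1⟩, ?_⟩
        rw [h1, norm_zero]
        positivity
    by_cases hvr : ‖v + t‖ ≤ ρ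
    · rcases hwin _ hS (ht3 v hfree hvr) with h1 | h1
      · left
        exact hsm hS h1 (by linarith)
      · right
        exact hlg hS h1 (by linarith)
    · push Not at hvr
      have h1 := h.far hN hρ hρ1 hκ hlog hvr.le
      have hdne : P.natDegree ≠ Q.natDegree := by
        intro h0
        have h1 := h.dif
        rw [h0, sub_self, abs_zero] at h1
        have : 0 < κ * N := by positivity
        linarith
      rcases lt_or_gt_of_ne hdne with hd | hd
      · left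
        exact hsm hS (h1.2 (by exact_mod_cast hd)) (by linarith)
      · right
        exact hlg hS (h1.1 (by exact_mod_cast hd)) (by linarith)

/-- The window near the point `v`. -/
def winSet (P Q : ℂ[X]) (N : ℕ) (ρ r : ℝ) (v : ℂ) : Set ℂ :=
  {z : ℂ | ‖z - v‖ ≤ r ∧ ‖z‖ ≤ ρ ∧ ‖Q.eval z‖ ≤ (N : ℝ) ^ 8 * ‖P.eval z‖ ∧
    ‖P.eval z‖ ≤ (N : ℝ) ^ 8 * ‖Q.eval z‖}

lemma Sp_card (h : Cfg M κ B N P Q) : (Sp P Q).card ≤ 2 * N := by
  have h1 : P.roots.toFinset.card ≤ N :=
    (Multiset.toFinset_card_le _).trans ((card_roots' _).trans (h.deg ▸ le_max_left _ _))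
  have h2 : Q.roots.toFinset.card ≤ N :=
    (Multiset.toFinset_card_le _).trans ((card_roots' _).trans (h.deg ▸ le_max_right _ _))
  have h3 : (Sp P Q).card ≤ _ := Finset.card_union_le _ _
  omega

/-- The area of the non-hyperbolic parameters is bounded by the area of the window. -/
theorem reduction (h : Cfg M κ B N P Q) (hb : Big M ρ N) (hM1 : 1 ≤ M) (hρ : 2 * M ≤ ρ)
    (hκ : 0 < κ) (hlog : B + 3 ≤ κ * Real.log ρ) (V : Finset ℂ) (h0 : (0 : ℂ) ∈ V)
    (hV : ∀ v, Free P Q v → v ∈ V) {r : ℝ} (hr : r ≤ M) :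
    volume {t : ℂ | ‖t‖ ≤ r ∧ ¬ Hyp (tr P t) (tr Q t)} ≤
      ∑ v ∈ V, volume (winSet P Q N ρ r v) + ENNReal.ofReal (7 / (N : ℝ) ^ 3) := by
  classical
  have h12 : (12 : ℝ) ≤ N := by exact_mod_cast hb.twelve
  have hN0 : (0 : ℝ) < N := by linarith
  have hcov : {t : ℂ | ‖t‖ ≤ r ∧ ¬ Hyp (tr P t) (tr Q t)} ⊆
      (⋃ v ∈ V, (fun t : ℂ => v + t) ⁻¹' winSet P Q N ρ r v) ∪
        ⋃ c ∈ Sp P Q, closedBall c (1 / (N : ℝ) ^ 5) := by
    rintro t ⟨ht, hnot⟩
    by_contra hcon
    rw [mem_union, not_or] at hcon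
    obtain ⟨c1, c2⟩ := hcon
    apply hnot
    have key : ∀ v ∈ V, ‖v + t‖ ≤ ρ → ¬ Win P Q N (v + t) := by
      intro v hv h1 h2
      apply c1
      refine mem_iUnion₂.2 ⟨v, hv, ?_⟩
      refine ⟨?_, h1, h2.1, h2.2⟩
      rw [add_sub_cancel_left]
      exact ht
    refine good_hyp h hb hM1 hρ hκ hlog (ht.trans hr) ?_ ?_ (fun v hv => key v (hV v hv))
    · intro c hc
      by_contra hlt
      push Not at hlt
      apply c2
      refine mem_iUnion₂.2 ⟨c, hc, ?_⟩
      rw [mem_closedBall, dist_eq_norm]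
      exact hlt.le
    · have := key 0 h0
      rw [zero_add] at this
      exact this (by linarith)
  refine (measure_mono hcov).trans ((measure_union_le _ _).trans (add_le_add ?_ ?_))
  · refine (measure_biUnion_finset_le _ _).trans (Finset.sum_le_sum (fun v _ => ?_))
    rw [measure_preimage_add]
  · refine (measure_biUnion_finset_le _ _).trans ?_
    rw [Finset.sum_congr rfl (fun c _ => Pool.Agent.U818.FC.volume_closedBall_eq c
      (by positivity : (0 : ℝ) ≤ 1 / (N : ℝ) ^ 5)), Finset.sum_const, nsmul_eq_mul]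
    have h1 : ((Sp P Q).card : ENNReal) ≤ ENNReal.ofReal (2 * N) := by
      rw [← ENNReal.ofReal_natCast]
      apply ENNReal.ofReal_le_ofReal
      exact_mod_cast Sp_card h
    refine (mul_le_mul' h1 le_rfl).trans ?_
    rw [← ENNReal.ofReal_mul (by positivity)]
    apply ENNReal.ofReal_le_ofReal
    have h3 : 2 * (N : ℝ) * (Real.pi * (1 / (N : ℝ) ^ 5) ^ 2) = 2 * Real.pi / (N : ℝ) ^ 9 := by
      field_simp
    rw [h3]
    have h4 := Real.pi_lt_d2
    apply div_le_div₀ (by norm_num) (by linarith) (by positivity)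
    exact pow_le_pow_right₀ (by linarith) (by norm_num)

end

end Pool.Agent.U818.RZ
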