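import Pool.Agent.U818.FC.Zone

/-!
# The area of the set on which a logarithmic potential with few charges of arbitrary signs is bounded

`S` is a finite set of points of the plane, `m c` is the (real) charge at `c`.
-/

set_option autoImplicit false

open Polynomial MeasureTheory Set Filter Topology Metric

namespace Pool.Agent.U818.RZ

open Pool.Agent.U818.FC (slices pieces quad_monic normSq_line re_line norm_eval'
  hasDerivAt_log_norm volume_closedBall_eq)

/-- The polynomial `∑ m_c ∏_{c' ≠ c} (X - c')`. -/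
noncomputable def P0 (S : Finset ℂ) (m : ℂ → ℝ) : ℂ[X] :=
  open Classical in ∑ c ∈ S, C ((m c : ℝ) : ℂ) * ∏ c' ∈ S.erase c, (X - C c')

/-- The total charge. -/
noncomputable def tot (S : Finset ℂ) (m : ℂ → ℝ) : ℝ := ∑ c ∈ S, m c

/-- The derivative of the potential. -/
noncomputable def ld (S : Finset ℂ) (m : ℂ → ℝ) (z : ℂ) : ℂ :=
  ∑ c ∈ S, ((m c : ℝ) : ℂ) * (1 / (z - c))

/-- The potential. -/
noncomputable def pot (S : Finset ℂ) (m : ℂ → ℝ) (s : ℝ) (z : ℂ) : ℝ :=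
  s + ∑ c ∈ S, m c * Real.log ‖z - c‖

variable {S : Finset ℂ} {m : ℂ → ℝ}

lemma P0_coeff : (P0 S m).coeff (S.card - 1) = ((tot S m : ℝ) : ℂ) := by
  classical
  rw [P0, finsetSum_coeff, tot]
  push_cast
  refine Finset.sum_congr rfl (fun c hc => ?_)
  rw [coeff_C_mul]
  have hm : (∏ c' ∈ S.erase c, (X - C c')).Monic :=
    monic_prod_of_monic _ _ (fun c' _ => monic_X_sub_C c')
  have hd : (∏ c' ∈ S.erase c, (X - C c')).natDegree = S.card - 1 := by
    rw [natDegree_prod_of_monic _ _ (fun c' _ => monic_X_sub_C c')]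
    simp [Finset.card_erase_of_mem hc]
  rw [← hd, hm.coeff_natDegree, mul_one]

lemma P0_natDegree_le : (P0 S m).natDegree ≤ S.card - 1 := by
  classical
  refine natDegree_sum_le_of_forall_le _ _ (fun c hc => ?_)
  refine (natDegree_C_mul_le _ _).trans ?_
  rw [natDegree_prod_of_monic _ _ (fun c' _ => monic_X_sub_C c')]
  simp [Finset.card_erase_of_mem hc]

lemma P0_natDegree (hD : tot S m ≠ 0) : (P0 S m).natDegree = S.card - 1 := by
  refine le_antisymm P0_natDegree_le (le_natDegree_of_ne_zero ?_)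
  rw [P0_coeff]
  exact_mod_cast hD

lemma P0_leadingCoeff (hD : tot S m ≠ 0) : (P0 S m).leadingCoeff = ((tot S m : ℝ) : ℂ) := by
  rw [leadingCoeff, P0_natDegree hD, P0_coeff]

lemma P0_lower (hD : tot S m ≠ 0) {k : ℕ} (hk : S.card ≤ k)
    {θ : ℝ} (hθ0 : 0 < θ) (hθ1 : θ ≤ 1) {z : ℂ} (hz : ∀ b ∈ (P0 S m).roots, θ ≤ ‖z - b‖) :
    |tot S m| * θ ^ (k - 1) ≤ ‖(P0 S m).eval z‖ := by
  rw [norm_eval', P0_leadingCoeff hD]
  have h1 : θ ^ (Multiset.card (P0 S m).roots) ≤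
      ((P0 S m).roots.map (fun c => ‖z - c‖)).prod := by
    calc θ ^ (Multiset.card (P0 S m).roots) = ((P0 S m).roots.map (fun _ => θ)).prod := by simp
      _ ≤ _ := Multiset.prod_map_le_prod_map₀ _ _ (fun c _ => hθ0.le) hz
  have h2 : θ ^ (k - 1) ≤ θ ^ (Multiset.card (P0 S m).roots) := by
    apply pow_le_pow_of_le_one hθ0.le hθ1
    calc Multiset.card (P0 S m).roots ≤ (P0 S m).natDegree := card_roots' _
      _ = S.card - 1 := P0_natDegree hD
      _ ≤ k - 1 := Nat.sub_le_sub_right hk 1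
  rw [Complex.norm_real, Real.norm_eq_abs]
  exact mul_le_mul_of_nonneg_left (h2.trans h1) (by positivity)

lemma ld_mul {z : ℂ} (hz : z ∉ S) : ld S m z * ∏ c ∈ S, (z - c) = (P0 S m).eval z := by
  classical
  rw [ld, P0, eval_finsetSum, Finset.sum_mul]
  refine Finset.sum_congr rfl (fun c hc => ?_)
  rw [eval_mul, eval_C, eval_prod, ← Finset.mul_prod_erase _ _ hc]
  have h : z - c ≠ 0 := sub_ne_zero.2 (fun h => hz (h ▸ hc))
  simp only [eval_sub, eval_X, eval_C]
  field_simp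

lemma ld_lower (hD : tot S m ≠ 0) {k : ℕ}
    (hk : S.card ≤ k) {M ρ : ℝ} (hM : ∀ c ∈ S, ‖c‖ ≤ M) (h1 : 1 ≤ ρ + M)
    {θ : ℝ} (hθ0 : 0 < θ) (hθ1 : θ ≤ 1) {z : ℂ} (hzp : z ∉ S) (hzρ : ‖z‖ ≤ ρ)
    (hz : ∀ b ∈ (P0 S m).roots, θ ≤ ‖z - b‖) :
    |tot S m| * θ ^ (k - 1) / (ρ + M) ^ k ≤ ‖ld S m z‖ := by
  have h2 := P0_lower hD hk hθ0 hθ1 hz
  rw [← ld_mul hzp, norm_mul] at h2
  have h3 : ‖∏ c ∈ S, (z - c)‖ ≤ (ρ + M) ^ k := by
    rw [norm_prod]
    calc ∏ c ∈ S, ‖z - c‖ ≤ ∏ _c ∈ S, (ρ + M) := by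
          refine Finset.prod_le_prod (fun c _ => norm_nonneg _) (fun c hc => ?_)
          calc ‖z - c‖ ≤ ‖z‖ + ‖c‖ := norm_sub_le _ _
            _ ≤ ρ + M := add_le_add hzρ (hM c hc)
      _ = (ρ + M) ^ S.card := by simp
      _ ≤ (ρ + M) ^ k := pow_le_pow_right₀ h1 hk
  have h4 : 0 < (ρ + M) ^ k := by positivity
  rw [div_le_iff₀ h4]
  exact h2.trans (mul_le_mul_of_nonneg_left h3 (norm_nonneg _))

/-- The real polynomial whose zeros are the critical points of the potential on the line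
`w + x e`. -/
noncomputable def lineq (S : Finset ℂ) (m : ℂ → ℝ) (w e : ℂ) : ℝ[X] :=
  open Classical in ∑ c ∈ S, C (m c) *
    ((X + C (e * (starRingEnd ℂ) (w - c)).re) *
      ∏ c' ∈ S.erase c,
        (X ^ 2 + (C (2 * (e * (starRingEnd ℂ) (w - c')).re) * X + C (‖w - c'‖ ^ 2))))

lemma lineq_term [DecidableEq ℂ] (w e : ℂ) {c : ℂ} (hc : c ∈ S) :
    ((X + C (e * (starRingEnd ℂ) (w - c)).re) *
      ∏ c' ∈ S.erase c,
        (X ^ 2 + (C (2 * (e * (starRingEnd ℂ) (w - c')).re) * X + C (‖w - c'‖ ^ 2)))).Monic ∧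
    ((X + C (e * (starRingEnd ℂ) (w - c)).re) *
      ∏ c' ∈ S.erase c,
        (X ^ 2 + (C (2 * (e * (starRingEnd ℂ) (w - c')).re) * X +
          C (‖w - c'‖ ^ 2)))).natDegree = 2 * S.card - 1 := by
  have h1 : (∏ c' ∈ S.erase c,
        (X ^ 2 + (C (2 * (e * (starRingEnd ℂ) (w - c')).re) * X +
          C (‖w - c'‖ ^ 2)) : ℝ[X])).Monic :=
    monic_prod_of_monic _ _ (fun c' _ => (quad_monic _ _).1)
  refine ⟨(monic_X_add_C _).mul h1, ?_⟩
  rw [(monic_X_add_C _).natDegree_mul h1, natDegree_X_add_C,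
    natDegree_prod_of_monic _ _ (fun c' _ => (quad_monic _ _).1),
    Finset.sum_congr rfl (fun c' _ => (quad_monic _ _).2)]
  rw [Finset.sum_const, Finset.card_erase_of_mem hc, smul_eq_mul]
  have : 0 < S.card := Finset.card_pos.2 ⟨c, hc⟩
  omega

lemma lineq_coeff (w e : ℂ) :
    (lineq S m w e).coeff (2 * S.card - 1) = tot S m := by
  classical
  rw [lineq, finsetSum_coeff, tot]
  refine Finset.sum_congr rfl (fun c hc => ?_)
  rw [coeff_C_mul, ← (lineq_term w e hc).2, (lineq_term w e hc).1.coeff_natDegree, mul_one]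

lemma lineq_natDegree_le (w e : ℂ) :
    (lineq S m w e).natDegree ≤ 2 * S.card - 1 := by
  classical
  refine natDegree_sum_le_of_forall_le _ _ (fun c hc => ?_)
  refine (natDegree_C_mul_le _ _).trans ?_
  rw [(lineq_term w e hc).2]

lemma lineq_ne_zero (hD : tot S m ≠ 0) (w e : ℂ) : lineq S m w e ≠ 0 := by
  intro h
  have := lineq_coeff (S := S) (m := m) w e
  rw [h, coeff_zero] at this
  exact hD this.symm

lemma lineq_eval (w e : ℂ) (he : ‖e‖ = 1) (x : ℝ) (hx : w + x * e ∉ S) :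
    (e * ld S m (w + x * e)).re *
      ∏ c ∈ S, ‖w + x * e - c‖ ^ 2 = (lineq S m w e).eval x := by
  classical
  rw [ld, lineq, eval_finsetSum, Finset.mul_sum, Complex.re_sum, Finset.sum_mul]
  refine Finset.sum_congr rfl (fun c hc => ?_)
  rw [eval_mul, eval_C, eval_mul, eval_prod, ← Finset.mul_prod_erase _ _ hc]
  have h : w + x * e - c ≠ 0 := sub_ne_zero.2 (fun h => hx (h ▸ hc))
  have h1 := re_line w e c he x h
  have h2 : (e * (((m c : ℝ) : ℂ) * (1 / (w + x * e - c)))).re =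
      (m c) * (e * (1 / (w + x * e - c))).re := by
    rw [← Complex.re_ofReal_mul]
    congr 1
    ring
  rw [h2]
  have h3 : ∏ c' ∈ S.erase c, ‖w + x * e - c'‖ ^ 2 =
      ∏ c' ∈ S.erase c, (X ^ 2 + (C (2 * (e * (starRingEnd ℂ) (w - c')).re) * X +
          C (‖w - c'‖ ^ 2)) : ℝ[X]).eval x := by
    refine Finset.prod_congr rfl (fun c' _ => ?_)
    rw [normSq_line w e c' he x]
    simp
  rw [h3]
  have h4 : (X + C (e * (starRingEnd ℂ) (w - c)).re : ℝ[X]).eval x =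
      x + (e * (starRingEnd ℂ) (w - c)).re := by simp
  rw [h4, ← h1]
  ring

lemma hasDerivAt_pot (s : ℝ) (w e : ℂ) (x : ℝ) (hx : w + x * e ∉ S) :
    HasDerivAt (fun x : ℝ => pot S m s (w + x * e)) (e * ld S m (w + x * e)).re x := by
  have h1 : ∀ c ∈ S, HasDerivAt (fun x : ℝ => m c * Real.log ‖w + x * e - c‖)
      (m c * (e * (1 / (w + x * e - c))).re) x := by
    intro c hc
    have h : w + x * e - c ≠ 0 := sub_ne_zero.2 (fun h => hx (h ▸ hc))
    have h2 := hasDerivAt_log_norm (X - C c) w e x (by simpa using h)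
    simp only [derivative_sub, derivative_X, derivative_C, sub_zero, eval_one, eval_sub, eval_X,
      eval_C] at h2
    exact h2.const_mul (m c)
  have h2 := (HasDerivAt.fun_sum h1).const_add s
  have h3 : (e * ld S m (w + x * e)).re = ∑ c ∈ S, m c * (e * (1 / (w + x * e - c))).re := by
    rw [ld, Finset.mul_sum, Complex.re_sum]
    refine Finset.sum_congr rfl (fun c _ => ?_)
    rw [← Complex.re_ofReal_mul]
    congr 1
    ring
  rw [h3]
  exact h2

lemma line_slice (hD : tot S m ≠ 0) {k : ℕ} (hk : S.card ≤ k) (s : ℝ)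
    (w e : ℂ) (he : ‖e‖ = 1) (E : Set ℝ) (hE : MeasurableSet E) {L g : ℝ} (hL0 : 0 ≤ L)
    (hg0 : 0 < g) (hE1 : ∀ x ∈ E, |pot S m s (w + x * e)| ≤ L)
    (hE3 : ∀ x ∈ E, g ≤ |(e * ld S m (w + x * e)).re|) :
    volume E ≤ ENNReal.ofReal (6 * k * L / g) := by
  classical
  have hZpos : 0 < S.card := by
    rw [Finset.card_pos]
    by_contra h0
    rw [Finset.not_nonempty_iff_eq_empty] at h0
    apply hD
    rw [h0, tot, Finset.sum_empty]
  set T : Finset ℝ := (lineq S m w e).roots.toFinset ∪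
    S.image (fun c => -(e * (starRingEnd ℂ) (w - c)).re) with hT
  have hTc : T.card + 1 ≤ 3 * k := by
    have h1 : (lineq S m w e).roots.toFinset.card ≤ 2 * S.card - 1 :=
      (Multiset.toFinset_card_le _).trans ((card_roots' _).trans (lineq_natDegree_le w e))
    have h2 : (S.image (fun c => -(e * (starRingEnd ℂ) (w - c)).re)).card ≤ S.card :=
      Finset.card_image_le
    have h3 : T.card ≤ _ := Finset.card_union_le _ _
    omega
  have hne : ∀ x : ℝ, x ∉ T → w + x * e ∉ S := by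
    intro x hx h0
    apply hx
    rw [hT, Finset.mem_union]
    right
    rw [Finset.mem_image]
    refine ⟨w + x * e, h0, ?_⟩
    have he2 : e.re * e.re + e.im * e.im = 1 := by
      have := Complex.sq_norm e
      rw [he, Complex.normSq_apply] at this
      linarith
    simp only [Complex.sub_re, Complex.add_re, Complex.mul_re, Complex.ofReal_re,
      Complex.ofReal_im, Complex.sub_im, Complex.add_im, Complex.mul_im, Complex.conj_re,
      Complex.conj_im]
    linear_combination x * he2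
  have hu : ∀ x : ℝ, x ∉ T →
      HasDerivAt (fun x : ℝ => pot S m s (w + x * e))
        ((fun x : ℝ => (e * ld S m (w + x * e)).re) x) x ∧
      (fun x : ℝ => (e * ld S m (w + x * e)).re) x ≠ 0 := by
    intro x hx
    refine ⟨hasDerivAt_pot s w e x (hne x hx), ?_⟩
    intro h0
    have h0' : (e * ld S m (w + x * e)).re = 0 := h0
    have h1 := lineq_eval (m := m) w e he x (hne x hx)
    rw [h0', zero_mul] at h1
    apply hx
    rw [hT, Finset.mem_union]
    left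
    rw [Multiset.mem_toFinset, mem_roots (lineq_ne_zero hD w e)]
    exact h1.symm
  have hfin := pieces _ _ T hu E hE hL0 hg0 hE1 hE3
  refine hfin.trans (ENNReal.ofReal_le_ofReal ?_)
  have h1 : ((T.card : ℝ) + 1) ≤ 3 * k := by exact_mod_cast hTc
  have h2 : 0 ≤ 2 * L / g := by positivity
  calc ((T.card : ℝ) + 1) * (2 * L / g) ≤ 3 * k * (2 * L / g) :=
        mul_le_mul_of_nonneg_right h1 h2
    _ = 6 * k * L / g := by ring

lemma measurable_pot (s : ℝ) : Measurable (pot S m s) := by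
  unfold pot
  refine measurable_const.add (Finset.measurable_sum _ (fun c _ => ?_))
  exact (Real.measurable_log.comp (measurable_id.sub measurable_const).norm).const_mul _

lemma measurable_ld : Measurable (ld S m) := by
  unfold ld
  refine Finset.measurable_sum _ (fun c _ => ?_)
  exact (measurable_const.div (measurable_id.sub measurable_const)).const_mul _

lemma zone_dir (hD : tot S m ≠ 0) {k : ℕ} (hk : S.card ≤ k) (s : ℝ)
    (e : ℂ) (he : ‖e‖ = 1) {L g : ℝ} (hL0 : 0 ≤ L) (hg0 : 0 < g) (z₀ : ℂ) {r ρ : ℝ} :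
    volume {z : ℂ | ‖z - z₀‖ ≤ r ∧ ‖z‖ ≤ ρ ∧ |pot S m s z| ≤ L ∧ g ≤ |(e * ld S m z).re|} ≤
      ENNReal.ofReal (2 * r) * ENNReal.ofReal (6 * k * L / g) := by
  set A : Set ℂ := {z : ℂ | ‖z - z₀‖ ≤ r ∧ ‖z‖ ≤ ρ ∧ |pot S m s z| ≤ L ∧
      g ≤ |(e * ld S m z).re|} with hA
  have hAm : MeasurableSet A := by
    have h2 : Measurable (fun z : ℂ => ‖z - z₀‖) := (measurable_id.sub measurable_const).norm
    have h1 : Measurable (fun z : ℂ => (e * ld S m z).re) :=
      Complex.measurable_re.comp (measurable_const.mul measurable_ld)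
    have h3 : Measurable (fun z : ℂ => |pot S m s z|) := (measurable_pot s).abs
    have m1 : MeasurableSet {z : ℂ | ‖z - z₀‖ ≤ r} := measurableSet_le h2 measurable_const
    have m2 : MeasurableSet {z : ℂ | ‖z‖ ≤ ρ} := measurableSet_le measurable_norm measurable_const
    have m3 : MeasurableSet {z : ℂ | |pot S m s z| ≤ L} :=
      measurableSet_le h3 measurable_const
    have m5 : MeasurableSet {z : ℂ | g ≤ |(e * ld S m z).re|} :=
      measurableSet_le measurable_const h1.abs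
    exact m1.inter (m2.inter (m3.inter m5))
  have hee : e * (starRingEnd ℂ) e = 1 := by
    rw [Complex.mul_conj, Complex.normSq_eq_norm_sq, he]
    simp
  -- rotate
  set φ : ℂ ≃ₗᵢ[ℝ] ℂ := rotation ⟨e, by simp [Submonoid.unitSphere, he]⟩ with hφ
  have hφa : ∀ z, φ z = e * z := fun z => by rw [hφ, rotation_apply]
  have hmp : MeasurePreserving φ := φ.measurePreserving
  have hvol : volume A = volume (φ ⁻¹' A) := (hmp.measure_preimage hAm.nullMeasurableSet).symm
  rw [hvol]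
  refine slices (φ ⁻¹' A) (hmp.measurable hAm) ((starRingEnd ℂ) e * z₀).im r ?_ ?_
  · intro z hz
    have h1 : ‖φ z - z₀‖ ≤ r := hz.1
    rw [hφa] at h1
    have h2 : e * z - z₀ = e * (z - (starRingEnd ℂ) e * z₀) := by
      linear_combination z₀ * hee
    rw [h2, norm_mul, he, one_mul] at h1
    rw [← Complex.sub_im]
    exact (Complex.abs_im_le_norm _).trans h1
  · intro y
    have hmk : ∀ x : ℝ, φ (⟨x, y⟩ : ℂ) = e * (y * Complex.I) + x * e := by
      intro x
      rw [hφa]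
      have : (⟨x, y⟩ : ℂ) = x + y * Complex.I := by
        apply Complex.ext <;> simp
      rw [this]
      ring
    have hEm : MeasurableSet {x : ℝ | (⟨x, y⟩ : ℂ) ∈ φ ⁻¹' A} := by
      have h1 : Measurable (fun x : ℝ => (⟨x, y⟩ : ℂ)) := by
        have : (fun x : ℝ => (⟨x, y⟩ : ℂ)) = fun x : ℝ => (x : ℂ) + y * Complex.I := by
          funext x
          apply Complex.ext <;> simp
        rw [this]
        exact (Complex.measurable_ofReal).add measurable_const
      exact h1 (hmp.measurable hAm)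
    refine line_slice hD hk s (e * (y * Complex.I)) e he _ hEm hL0 hg0 ?_ ?_
    · intro x hx
      have h1 : φ (⟨x, y⟩ : ℂ) ∈ A := hx
      rw [hmk] at h1
      exact h1.2.2.1
    · intro x hx
      have h1 : φ (⟨x, y⟩ : ℂ) ∈ A := hx
      rw [hmk] at h1
      exact h1.2.2.2

/-- The part of the zone `|U| ≤ L` in a disc of radius `r` on which all critical
points of the potential `U` are at distance at least `θ`. -/
theorem zone_core (hD : tot S m ≠ 0) {k : ℕ} (hk : S.card ≤ k) (s : ℝ)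
    {M ρ : ℝ} (hM : ∀ c ∈ S, ‖c‖ ≤ M) (h1 : 1 ≤ ρ + M)
    {θ : ℝ} (hθ0 : 0 < θ) (hθ1 : θ ≤ 1) {L : ℝ} (hL0 : 0 ≤ L) (z₀ : ℂ) {r : ℝ} (hr : 0 ≤ r) :
    volume {z : ℂ | ‖z - z₀‖ ≤ r ∧ ‖z‖ ≤ ρ ∧ z ∉ S ∧ |pot S m s z| ≤ L ∧
      ∀ b ∈ (P0 S m).roots, θ ≤ ‖z - b‖} ≤
      ENNReal.ofReal (48 * k * (ρ + M) ^ k * (r * L / (|tot S m| * θ ^ (k - 1)))) := by
  classical
  have hD' : 0 < |tot S m| := abs_pos.2 hD
  have hρM : 0 < (ρ + M) ^ k := by positivity
  set G : ℝ := |tot S m| * θ ^ (k - 1) / (ρ + M) ^ k with hG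
  have hG0 : 0 < G := by positivity
  set A : ℂ → Set ℂ := fun e => {z : ℂ | ‖z - z₀‖ ≤ r ∧ ‖z‖ ≤ ρ ∧ |pot S m s z| ≤ L ∧
      G / 2 ≤ |(e * ld S m z).re|} with hA
  have hcov : {z : ℂ | ‖z - z₀‖ ≤ r ∧ ‖z‖ ≤ ρ ∧ z ∉ S ∧ |pot S m s z| ≤ L ∧
      ∀ b ∈ (P0 S m).roots, θ ≤ ‖z - b‖} ⊆ A 1 ∪ A Complex.I := by
    rintro z ⟨hz1, hz2, hzp, hz3, hb⟩
    have h2 := ld_lower hD hk hM h1 hθ0 hθ1 hzp hz2 hb
    rw [← hG] at h2
    set q := ld S m z with hq
    have h3 : ‖q‖ ≤ |q.re| + |q.im| := Complex.norm_le_abs_re_add_abs_im q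
    by_cases h4 : G / 2 ≤ |q.re|
    · left
      refine ⟨hz1, hz2, hz3, ?_⟩
      rw [one_mul]
      exact h4
    · right
      refine ⟨hz1, hz2, hz3, ?_⟩
      have h5 : (Complex.I * q).re = -q.im := by simp
      rw [← hq, h5, abs_neg]
      push Not at h4
      linarith
  have hG2 : 0 < G / 2 := by positivity
  have hdir : ∀ e : ℂ, ‖e‖ = 1 → volume (A e) ≤
      ENNReal.ofReal (24 * k * (ρ + M) ^ k * (r * L / (|tot S m| * θ ^ (k - 1)))) := by
    intro e he
    refine (zone_dir hD hk s e he hL0 hG2 z₀).trans ?_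
    rw [← ENNReal.ofReal_mul (by positivity)]
    apply ENNReal.ofReal_le_ofReal
    apply le_of_eq
    rw [hG]
    field_simp
    ring
  refine (measure_mono hcov).trans ?_
  refine (measure_union_le _ _).trans ?_
  refine (add_le_add (hdir 1 (by simp)) (hdir Complex.I (by simp))).trans ?_
  rw [← ENNReal.ofReal_add (by positivity) (by positivity)]
  apply ENNReal.ofReal_le_ofReal
  apply le_of_eq
  ring

lemma P0_roots_card {k : ℕ} (hk : S.card ≤ k) :
    (P0 S m).roots.toFinset.card ≤ k - 1 :=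
  (Multiset.toFinset_card_le _).trans ((card_roots' _).trans
    (P0_natDegree_le.trans (Nat.sub_le_sub_right hk 1)))

/-- The zone lemma, dyadic form. -/
theorem zone (hD : tot S m ≠ 0) {k : ℕ} (hk : S.card ≤ k) (s : ℝ)
    {M ρ : ℝ} (hM : ∀ c ∈ S, ‖c‖ ≤ M) (h1 : 1 ≤ ρ + M)
    {θ : ℝ} (hθ0 : 0 < θ) (hθ1 : θ ≤ 1) {L : ℝ} (hL0 : 0 ≤ L) (z₀ : ℂ) {r : ℝ} (hr : 0 ≤ r)
    (n : ℕ) :
    volume {z : ℂ | ‖z - z₀‖ ≤ r ∧ ‖z‖ ≤ ρ ∧ z ∉ S ∧ |pot S m s z| ≤ L} ≤
      ENNReal.ofReal (48 * k * (ρ + M) ^ k * (r * L / (|tot S m| * θ ^ (k - 1)))) +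
      ((∑ i ∈ Finset.range n, ((k - 1 : ℕ) : ENNReal) *
        ENNReal.ofReal (48 * k * (ρ + M) ^ k * (θ * (1 / 2) ^ i * L /
          (|tot S m| * (θ * (1 / 2) ^ (i + 1)) ^ (k - 1))))) +
        ((k - 1 : ℕ) : ENNReal) * ENNReal.ofReal (Real.pi * (θ * (1 / 2) ^ n) ^ 2)) := by
  classical
  set Z : Set ℂ := {z : ℂ | ‖z - z₀‖ ≤ r ∧ ‖z‖ ≤ ρ ∧ z ∉ S ∧ |pot S m s z| ≤ L} with hZ
  set W : ℕ → Set ℂ := fun i => {z | z ∈ Z ∧ ∃ b ∈ (P0 S m).roots, ‖z - b‖ < θ * (1 / 2) ^ i}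
    with hW
  have hθi : ∀ i : ℕ, 0 < θ * (1 / 2) ^ i ∧ θ * (1 / 2) ^ i ≤ 1 := by
    intro i
    refine ⟨by positivity, ?_⟩
    exact mul_le_one₀ hθ1 (by positivity) (pow_le_one₀ (by norm_num) (by norm_num))
  have hstart : volume Z ≤
      ENNReal.ofReal (48 * k * (ρ + M) ^ k * (r * L / (|tot S m| * θ ^ (k - 1)))) +
      volume (W 0) := by
    refine (measure_mono ?_).trans ((measure_union_le _ _).trans
      (add_le_add (zone_core hD hk s hM h1 hθ0 hθ1 hL0 z₀ hr) le_rfl))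
    intro z hz
    by_cases hb : ∀ b ∈ (P0 S m).roots, θ ≤ ‖z - b‖
    · exact Or.inl ⟨hz.1, hz.2.1, hz.2.2.1, hz.2.2.2, hb⟩
    · right
      push Not at hb
      obtain ⟨b, hb1, hb2⟩ := hb
      exact ⟨hz, b, hb1, by simpa using hb2⟩
  have hstep : ∀ i, volume (W i) ≤ ((k - 1 : ℕ) : ENNReal) *
        ENNReal.ofReal (48 * k * (ρ + M) ^ k * (θ * (1 / 2) ^ i * L /
          (|tot S m| * (θ * (1 / 2) ^ (i + 1)) ^ (k - 1)))) + volume (W (i + 1)) := by
    intro i
    have hcov : W i ⊆ (⋃ b ∈ (P0 S m).roots.toFinset, {z : ℂ | ‖z - b‖ ≤ θ * (1 / 2) ^ i ∧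
        ‖z‖ ≤ ρ ∧ z ∉ S ∧ |pot S m s z| ≤ L ∧
        ∀ b ∈ (P0 S m).roots, θ * (1 / 2) ^ (i + 1) ≤ ‖z - b‖}) ∪ W (i + 1) := by
      rintro z ⟨hz, b, hb1, hb2⟩
      by_cases hb : ∀ b ∈ (P0 S m).roots, θ * (1 / 2) ^ (i + 1) ≤ ‖z - b‖
      · left
        exact mem_iUnion₂.2 ⟨b, Multiset.mem_toFinset.2 hb1, hb2.le, hz.2.1, hz.2.2.1,
          hz.2.2.2, hb⟩
      · right
        push Not at hb
        obtain ⟨b, hb1, hb2⟩ := hb
        exact ⟨hz, b, hb1, hb2⟩
    refine (measure_mono hcov).trans ((measure_union_le _ _).trans (add_le_add ?_ le_rfl))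
    refine (measure_biUnion_finset_le _ _).trans ?_
    refine (Finset.sum_le_sum (fun b _ => zone_core hD hk s hM h1 (hθi (i + 1)).1
      (hθi (i + 1)).2 hL0 b (hθi i).1.le)).trans ?_
    rw [Finset.sum_const, nsmul_eq_mul]
    gcongr
    exact P0_roots_card hk
  have hend : volume (W n) ≤ ((k - 1 : ℕ) : ENNReal) *
      ENNReal.ofReal (Real.pi * (θ * (1 / 2) ^ n) ^ 2) := by
    have hcov : W n ⊆ ⋃ b ∈ (P0 S m).roots.toFinset, closedBall b (θ * (1 / 2) ^ n) := by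
      rintro z ⟨-, b, hb1, hb2⟩
      refine mem_iUnion₂.2 ⟨b, Multiset.mem_toFinset.2 hb1, ?_⟩
      rw [mem_closedBall, dist_eq_norm]
      exact hb2.le
    refine (measure_mono hcov).trans ((measure_biUnion_finset_le _ _).trans ?_)
    rw [Finset.sum_congr rfl (fun b _ => volume_closedBall_eq b (hθi n).1.le),
      Finset.sum_const, nsmul_eq_mul]
    gcongr
    exact P0_roots_card hk
  have hind : ∀ m', volume (W 0) ≤ (∑ i ∈ Finset.range m', ((k - 1 : ℕ) : ENNReal) *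
        ENNReal.ofReal (48 * k * (ρ + M) ^ k * (θ * (1 / 2) ^ i * L /
          (|tot S m| * (θ * (1 / 2) ^ (i + 1)) ^ (k - 1))))) + volume (W m') := by
    intro m'
    induction m' with
    | zero => simp
    | succ m' ih =>
      rw [Finset.sum_range_succ]
      refine ih.trans ?_
      rw [add_assoc]
      exact add_le_add le_rfl (hstep m')
  refine hstart.trans (add_le_add le_rfl ((hind n).trans (add_le_add le_rfl hend)))

end Pool.Agent.U818.RZ
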